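import Pool.Agent.H28.IQ.Good

/-!
# The coordinate ring of `T(t) = g(x)`
-/

set_option autoImplicit false

namespace Pool.Agent.H28.IQ

open QuadraticAlgebra Polynomial

variable {F : Type} [Field F]

/-- the polynomial `T(t) - g(x)` as a polynomial in `t` over `F[x]` -/
noncomputable def PP (g T : F[X]) : F[X][X] := T.map C - C g

/-- the coordinate ring `F[x, t] / (T(t) - g(x))` -/
abbrev A (g T : F[X]) : Type := AdjoinRoot (PP g T)

/-- the coordinate `x` -/
noncomputable def cx (g T : F[X]) : A g T := AdjoinRoot.of (PP g T) X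

/-- the coordinate `t` -/
noncomputable def ct (g T : F[X]) : A g T := AdjoinRoot.root (PP g T)

theorem of_eq (g T b : F[X]) : AdjoinRoot.of (PP g T) b = aeval (cx g T) b := by
  have h1 : (AdjoinRoot.of (PP g T)) = (aeval (cx g T) : F[X] →ₐ[F] A g T).toRingHom := by
    apply Polynomial.ringHom_ext
    · intro a
      change AdjoinRoot.of (PP g T) (C a) = aeval (cx g T) (C a)
      rw [aeval_C]
      rfl
    · change AdjoinRoot.of (PP g T) X = aeval (cx g T) X
      rw [aeval_X]
      rfl
  rw [h1]
  rfl

theorem rel (g T : F[X]) : aeval (ct g T) T = aeval (cx g T) g := by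
  have h1 := AdjoinRoot.eval₂_root (PP g T)
  unfold PP at h1
  rw [eval₂_sub, eval₂_C, eval₂_map, sub_eq_zero] at h1
  rw [← of_eq]
  unfold PP
  rw [← h1]
  rfl

theorem lft_aux {S : Type} [CommRing S] [Algebra F S] (g T : F[X]) (x t : S)
    (h : aeval t T = aeval x g) :
    (PP g T).eval₂ (aeval x : F[X] →ₐ[F] S).toRingHom t = 0 := by
  unfold PP
  rw [eval₂_sub, eval₂_C, eval₂_map, sub_eq_zero]
  have h1 : ((aeval x : F[X] →ₐ[F] S).toRingHom).comp (C : F →+* F[X]) = algebraMap F S := by
    ext a
    simp
  rw [h1]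
  exact h

/-- maps out of the coordinate ring -/
noncomputable def lft {S : Type} [CommRing S] [Algebra F S] (g T : F[X]) (x t : S)
    (h : aeval t T = aeval x g) : A g T →ₐ[F] S :=
  { AdjoinRoot.lift (aeval x : F[X] →ₐ[F] S).toRingHom t (lft_aux g T x t h) with
    commutes' := fun r => by
      change AdjoinRoot.lift (aeval x : F[X] →ₐ[F] S).toRingHom t (lft_aux g T x t h)
        (AdjoinRoot.of (PP g T) (C r)) = _
      rw [AdjoinRoot.lift_of]
      simp }

theorem lft_cx {S : Type} [CommRing S] [Algebra F S] (g T : F[X]) (x t : S)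
    (h : aeval t T = aeval x g) : lft g T x t h (cx g T) = x := by
  change AdjoinRoot.lift (aeval x : F[X] →ₐ[F] S).toRingHom t (lft_aux g T x t h)
    (AdjoinRoot.of (PP g T) X) = x
  rw [AdjoinRoot.lift_of]
  simp

theorem lft_ct {S : Type} [CommRing S] [Algebra F S] (g T : F[X]) (x t : S)
    (h : aeval t T = aeval x g) : lft g T x t h (ct g T) = t := by
  change AdjoinRoot.lift (aeval x : F[X] →ₐ[F] S).toRingHom t (lft_aux g T x t h)
    (AdjoinRoot.root (PP g T)) = t
  rw [AdjoinRoot.lift_root]

theorem hom_ext {S : Type} [CommRing S] [Algebra F S] {g T : F[X]} {f f' : A g T →ₐ[F] S}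
    (hx : f (cx g T) = f' (cx g T)) (ht : f (ct g T) = f' (ct g T)) : f = f' := by
  have h1 : (f : A g T →+* S) = (f' : A g T →+* S) := by
    apply AdjoinRoot.ringHom_ext
    · apply Polynomial.ringHom_ext
      · intro a
        change f (AdjoinRoot.of (PP g T) (C a)) = f' (AdjoinRoot.of (PP g T) (C a))
        have h2 : AdjoinRoot.of (PP g T) (C a) = algebraMap F (A g T) a := rfl
        rw [h2, f.commutes, f'.commutes]
      · exact hx
    · exact ht
  exact AlgHom.ext fun z => congrFun (congrArg DFunLike.coe h1) z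

theorem good_poly (g : F[X]) (hg : Odd g.natDegree) : Good F F[X] g := by
  refine ⟨inferInstance, ?_, degree, g.natDegree, ?_, hg, ?_⟩
  · intro I _
    exact IsPrincipalIdealRing.principal I
  · exact {
      mul := fun a b => degree_mul
      add := fun a b => degree_add_le a b
      bot := fun a => degree_eq_bot
      zero := fun a => by
        constructor
        · intro h
          have h1 := eq_C_of_degree_eq_zero h
          refine ⟨a.coeff 0, ?_, h1⟩
          intro h2
          rw [h2, map_zero] at h1
          rw [h1, degree_zero] at h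
          exact absurd h (by simp)
        · rintro ⟨c, hc, rfl⟩
          exact degree_C hc }
  · refine degree_eq_natDegree ?_
    rintro rfl
    rw [natDegree_zero] at hg
    exact absurd hg (by decide)

theorem good_X (g : F[X]) (hg : Odd g.natDegree) : Good F (A g X) (ct g X) := by
  have hr : ct g X = aeval (cx g X) g := by
    rw [← rel, aeval_X]
  let f : F[X] →ₐ[F] A g X := aeval (cx g X)
  let f' : A g X →ₐ[F] F[X] := lft g X X g (by rw [aeval_X, aeval_X_left_apply])
  let e : F[X] ≃ₐ[F] A g X := AlgEquiv.ofAlgHom f f' (by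
    apply hom_ext
    · change f (f' (cx g X)) = cx g X
      rw [lft_cx]
      exact aeval_X _
    · change f (f' (ct g X)) = ct g X
      rw [lft_ct, hr]) (by
    apply Polynomial.algHom_ext
    change f' (f X) = X
    have h1 : f X = cx g X := aeval_X _
    rw [h1, lft_cx])
  refine (good_poly g hg).of_equiv e (α := 1) (β := 0) one_ne_zero ?_
  rw [map_one, one_mul, map_zero, add_zero, hr]
  rfl

theorem good_affine {g T : F[X]} (h : Good F (A g T) (ct g T)) {a b : F} (ha : a ≠ 0) :
    Good F (A g (T.comp (C a * X + C b))) (ct g (T.comp (C a * X + C b))) := by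
  set T' := T.comp (C a * X + C b) with hT'
  let f : A g T →ₐ[F] A g T' := lft g T (cx g T')
    (algebraMap F _ a * ct g T' + algebraMap F _ b) (by
      rw [← rel, hT', aeval_comp]
      congr 1
      simp)
  let f' : A g T' →ₐ[F] A g T := lft g T' (cx g T)
    (algebraMap F _ a⁻¹ * (ct g T - algebraMap F _ b)) (by
      rw [← rel, hT', aeval_comp]
      congr 1
      rw [map_add, map_mul, aeval_C, aeval_C, aeval_X, ← mul_assoc, ← map_mul, mul_inv_cancel₀ ha,
        map_one, one_mul, sub_add_cancel])
  have hfx : f (cx g T) = cx g T' := lft_cx _ _ _ _ _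
  have hft : f (ct g T) = algebraMap F _ a * ct g T' + algebraMap F _ b := lft_ct _ _ _ _ _
  have hfx' : f' (cx g T') = cx g T := lft_cx _ _ _ _ _
  have hft' : f' (ct g T') = algebraMap F _ a⁻¹ * (ct g T - algebraMap F _ b) := lft_ct _ _ _ _ _
  let e : A g T ≃ₐ[F] A g T' := AlgEquiv.ofAlgHom f f' (by
    apply hom_ext
    · change f (f' (cx g T')) = cx g T'
      rw [hfx', hfx]
    · change f (f' (ct g T')) = ct g T'
      rw [hft', map_mul, map_sub, hft, f.commutes, f.commutes, add_sub_cancel_right, ← mul_assoc,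
        ← map_mul, inv_mul_cancel₀ ha, map_one, one_mul]) (by
    apply hom_ext
    · change f' (f (cx g T)) = cx g T
      rw [hfx, hfx']
    · change f' (f (ct g T)) = ct g T
      rw [hft, map_add, map_mul, hft', f'.commutes, f'.commutes, ← mul_assoc,
        ← map_mul, mul_inv_cancel₀ ha, map_one, one_mul, sub_add_cancel])
  refine h.of_equiv e (α := a⁻¹) (β := -(a⁻¹ * b)) (inv_ne_zero ha) ?_
  have h1 : e (ct g T) = algebraMap F _ a * ct g T' + algebraMap F _ b := hft
  rw [h1, mul_add, ← mul_assoc, ← map_mul, inv_mul_cancel₀ ha, map_one, one_mul, map_neg, ← map_mul,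
    add_neg_cancel_right]

end Pool.Agent.H28.IQ
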