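import Mathlib

/-!
# Squares of ideals: general lemmas
-/

set_option autoImplicit false

namespace Pool.Agent.H28.IQ

/-- if the square of an ideal is principal then the ideal is principal -/
def SqP (R : Type) [CommRing R] : Prop :=
  ∀ I : Ideal R, (I ^ 2).IsPrincipal → I.IsPrincipal

theorem ideal_sq_dvd {A : Type} [CommRing A] [IsDedekindDomain A] {I J : Ideal A}
    (h : I ^ 2 ∣ J ^ 2) : I ∣ J :=
  (UniqueFactorizationMonoid.pow_dvd_pow_iff_dvd two_ne_zero).1 h

theorem ideal_sq_inj {A : Type} [CommRing A] [IsDedekindDomain A] {I J : Ideal A}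
    (h : I ^ 2 = J ^ 2) : I = J :=
  dvd_antisymm (ideal_sq_dvd (dvd_of_eq h)) (ideal_sq_dvd (dvd_of_eq h.symm))

/-- an ideal contained in a principal ideal -/
theorem exists_mul {A : Type} [CommRing A] {s : A} {J : Ideal A}
    (h : J ≤ Ideal.span {s}) : ∃ J1 : Ideal A, J = Ideal.span {s} * J1 := by
  refine ⟨Submodule.comap (LinearMap.lsmul A A s) J, ?_⟩
  ext x
  rw [Ideal.mem_span_singleton_mul]
  constructor
  · intro hx
    obtain ⟨y, rfl⟩ := Ideal.mem_span_singleton.1 (h hx)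
    exact ⟨y, by simpa using hx, rfl⟩
  · rintro ⟨y, hy, rfl⟩
    simpa using hy

theorem span_mul_cancel {A : Type} [CommRing A] [IsDomain A] {s : A} (hs : s ≠ 0) {I J : Ideal A}
    (h : Ideal.span {s} * I = Ideal.span {s} * J) : I = J := by
  ext x
  constructor
  · intro hx
    have h1 : s * x ∈ Ideal.span {s} * J := by
      rw [← h]
      exact Ideal.mem_span_singleton_mul.2 ⟨x, hx, rfl⟩
    obtain ⟨y, hy, hxy⟩ := Ideal.mem_span_singleton_mul.1 h1
    rwa [mul_left_cancel₀ hs hxy] at hy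
  · intro hx
    have h1 : s * x ∈ Ideal.span {s} * I := by
      rw [h]
      exact Ideal.mem_span_singleton_mul.2 ⟨x, hx, rfl⟩
    obtain ⟨y, hy, hxy⟩ := Ideal.mem_span_singleton_mul.1 h1
    rwa [mul_left_cancel₀ hs hxy] at hy

/-- strip a prime element from an ideal with principal square -/
theorem strip {A : Type} [CommRing A] [IsDomain A] {s k : A} (hs : s ≠ 0) {J : Ideal A}
    (hJ : J ^ 2 = Ideal.span {k}) (h : J ≤ Ideal.span {s}) :
    ∃ (J1 : Ideal A) (k1 : A), J = Ideal.span {s} * J1 ∧ k = s ^ 2 * k1 ∧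
      J1 ^ 2 = Ideal.span {k1} := by
  obtain ⟨J1, rfl⟩ := exists_mul h
  rw [mul_pow, Ideal.span_singleton_pow] at hJ
  have h1 : k ∈ Ideal.span {s ^ 2} * J1 ^ 2 := by
    rw [hJ]
    exact Ideal.mem_span_singleton_self _
  obtain ⟨k1, hk1, rfl⟩ := Ideal.mem_span_singleton_mul.1 h1
  refine ⟨J1, k1, rfl, rfl, ?_⟩
  rw [← Ideal.span_singleton_mul_span_singleton] at hJ
  exact span_mul_cancel (pow_ne_zero 2 hs) hJ

/-- two elements generating the same ideal -/
theorem principal_of_sq {A : Type} [CommRing A] [IsDedekindDomain A] {I : Ideal A} {a z u : A}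
    (hI : I ^ 2 = Ideal.span {a}) (hu : IsUnit u) (h : z ^ 2 = a * u) : I.IsPrincipal := by
  refine ⟨⟨z, ?_⟩⟩
  change I = Ideal.span {z}
  apply ideal_sq_inj
  rw [hI, Ideal.span_singleton_pow, h]
  exact (Ideal.span_singleton_mul_right_unit hu a).symm

/-- if `w ^ 2 = a k` and `(a)` is the square of an ideal then so is `(k)` -/
theorem cofactor_sq {A : Type} [CommRing A] [IsDedekindDomain A] {I : Ideal A} {a k w : A}
    (ha : a ≠ 0) (hI : I ^ 2 = Ideal.span {a}) (h : w ^ 2 = a * k) :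
    ∃ J : Ideal A, J ^ 2 = Ideal.span {k} := by
  have h1 : I ^ 2 ∣ (Ideal.span {w}) ^ 2 := by
    rw [hI, Ideal.span_singleton_pow, h, Ideal.dvd_span_singleton]
    exact Ideal.mul_mem_right _ _ (Ideal.mem_span_singleton_self _)
  obtain ⟨J, hJ⟩ := ideal_sq_dvd h1
  refine ⟨J, ?_⟩
  have h2 : Ideal.span {a} * J ^ 2 = Ideal.span {a} * Ideal.span {k} := by
    rw [← hI, ← mul_pow, ← hJ, Ideal.span_singleton_pow, h, ← Ideal.span_singleton_mul_span_singleton,
      ← hI]
  exact span_mul_cancel ha h2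

theorem dvd_of_sq_mul_unit {A : Type} [CommRing A] [IsDedekindDomain A] {y w a u : A}
    (h : w ^ 2 = a * (u * y ^ 2)) : ∃ z, w = y * z := by
  have h1 : y ^ 2 ∣ w ^ 2 := ⟨a * u, by rw [h]; ring⟩
  exact (IsIntegrallyClosed.pow_dvd_pow_iff two_ne_zero).1 h1

end Pool.Agent.H28.IQ
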