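import Pool.Agent.H28.IQ.Deg
import Pool.Agent.H28.IQ.Gen

/-!
# Squares of ideals in the ramified quadratic extension
-/

set_option autoImplicit false

namespace Pool.Agent.H28.IQ

open QuadraticAlgebra

variable {F R : Type} [Field F] [CommRing R] [Algebra F R] {D : R → WithBot ℕ} {p : R}

theorem decomp (z : Q R p) : z = algebraMap R (Q R p) z.re + algebraMap R (Q R p) z.im * ω := by
  ext <;> simp

theorem omega_sq : (ω : Q R p) ^ 2 = algebraMap R (Q R p) p := by
  ext <;> simp [sq]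

/-- `s ∣ z` iff `p ∣ re z` -/
theorem omega_dvd_iff (z : Q R p) : (ω : Q R p) ∣ z ↔ p ∣ z.re := by
  constructor
  · rintro ⟨w, rfl⟩
    refine ⟨w.im, ?_⟩
    simp
  · rintro ⟨a, ha⟩
    refine ⟨⟨z.im, a⟩, ?_⟩
    ext
    · simp [ha]
    · simp

theorem omega_dvd_star (z : Q R p) : (ω : Q R p) ∣ star z ↔ (ω : Q R p) ∣ z := by
  rw [omega_dvd_iff, omega_dvd_iff, re_star, zero_mul, add_zero]

theorem omega_prime (hp : Prime p) : Prime (ω : Q R p) := by
  refine ⟨?_, ?_, ?_⟩
  · intro h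
    apply hp.1
    have h1 : (ω : Q R p) ^ 2 = 0 := by rw [h]; simp
    rw [omega_sq] at h1
    exact algebraMap_injective (by rw [h1, map_zero])
  · intro h
    apply hp.2.1
    rw [isUnit_iff_dvd_one] at h ⊢
    have := (omega_dvd_iff _).1 h
    simpa using this
  · intro z w h
    rw [omega_dvd_iff] at h
    rw [omega_dvd_iff, omega_dvd_iff]
    have h1 : p ∣ z.re * w.re := by
      have h2 : (z * w).re = z.re * w.re + p * (z.im * w.im) := by
        rw [re_mul]; ring
      rw [h2] at h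
      exact (dvd_add_left (dvd_mul_right _ _)).1 h
    exact hp.2.2 _ _ h1

theorem omega_ne_zero (hp : Prime p) : (ω : Q R p) ≠ 0 := (omega_prime hp).1

theorem omega_dvd_algebraMap {k : R} (h : (ω : Q R p) ∣ algebraMap R (Q R p) k) : p ∣ k := by
  rw [omega_dvd_iff] at h
  simpa using h

/-- contraction of an extended ideal -/
theorem contr (I : Ideal R) (z : Q R p) (hz : z ∈ I.map (algebraMap R (Q R p))) : z.re ∈ I := by
  have h1 : z.re ∈ I ∧ z.im ∈ I := by
    refine Submodule.span_induction ?_ ?_ ?_ ?_ hz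
    · rintro _ ⟨a, ha, rfl⟩
      exact ⟨by simpa using ha, by simp⟩
    · exact ⟨I.zero_mem, I.zero_mem⟩
    · rintro a b _ _ ⟨h1, h2⟩ ⟨h3, h4⟩
      exact ⟨I.add_mem h1 h3, I.add_mem h2 h4⟩
    · rintro a b _ ⟨h1, h2⟩
      rw [smul_eq_mul, re_mul, im_mul]
      refine ⟨I.add_mem (I.mul_mem_left _ h1) (I.mul_mem_left _ h2), ?_⟩
      refine I.add_mem (I.add_mem (I.mul_mem_left _ h2) (I.mul_mem_left _ h1))
        (I.mul_mem_left _ h2)
  exact h1.1

theorem contr_eq {M : Ideal R} {k : R}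
    (h : M.map (algebraMap R (Q R p)) = Ideal.span {algebraMap R (Q R p) k}) :
    M = Ideal.span {k} := by
  apply le_antisymm
  · intro y hy
    have h1 : algebraMap R (Q R p) y ∈ Ideal.span {algebraMap R (Q R p) k} := by
      rw [← h]
      exact Ideal.mem_map_of_mem _ hy
    obtain ⟨w, hw⟩ := Ideal.mem_span_singleton'.1 h1
    refine Ideal.mem_span_singleton'.2 ⟨w.re, ?_⟩
    have h2 := congrArg QuadraticAlgebra.re hw
    simpa [re_mul] using h2
  · rw [Ideal.span_singleton_le_iff_mem]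
    have h1 : algebraMap R (Q R p) k ∈ Ideal.map (algebraMap R (Q R p)) M := by
      rw [h]
      exact Ideal.mem_span_singleton_self _
    simpa using contr _ _ h1

/-- the square root of an ideal generated by an element of `R` is stable under conjugation -/
theorem star_mem [IsDedekindDomain (Q R p)] {J : Ideal (Q R p)} {k : R}
    (hJ : J ^ 2 = Ideal.span {algebraMap R (Q R p) k}) : ∀ z ∈ J, star z ∈ J := by
  have h1 : (J.map (starRingEnd (Q R p))) = J := by
    apply ideal_sq_inj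
    rw [← Ideal.map_pow, hJ, Ideal.map_span, Set.image_singleton]
    congr 2
    ext <;> simp [starRingEnd_apply]
  intro z hz
  rw [← h1]
  exact Ideal.mem_map_of_mem (starRingEnd (Q R p)) hz

theorem re_mem (h2u : IsUnit (2 : R)) {J : Ideal (Q R p)} (hs : ∀ z ∈ J, star z ∈ J) :
    ∀ z ∈ J, z.re ∈ J.comap (algebraMap R (Q R p)) := by
  intro z hz
  have h1 : z + star z ∈ J := J.add_mem hz (hs z hz)
  have h2 : z + star z = algebraMap R (Q R p) (2 * z.re) := by
    ext
    · simp [two_mul]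
    · simp
  rw [h2] at h1
  have h3 : (2 : R) * z.re ∈ J.comap (algebraMap R (Q R p)) := h1
  obtain ⟨v, hv⟩ := h2u
  have h4 := (J.comap (algebraMap R (Q R p))).mul_mem_left (↑v⁻¹ : R) h3
  rwa [← hv, ← mul_assoc, Units.inv_mul, one_mul] at h4

theorem bezout [IsDedekindDomain R] (hp : Prime p) {x : R} (hx : ¬ p ∣ x) :
    ∃ r r' : R, r * x + r' * p = 1 := by
  have hmax : (Ideal.span {p}).IsMaximal := by
    have h1 : (Ideal.span {p}).IsPrime := (Ideal.span_singleton_prime hp.1).2 hp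
    exact h1.isMaximal (by rw [Ne, Ideal.span_singleton_eq_bot]; exact hp.1)
  have h1 : Ideal.span {p} ⊔ Ideal.span {x} = ⊤ := by
    refine hmax.1.2 _ ?_
    refine lt_of_le_of_ne le_sup_left (fun h => hx ?_)
    have : x ∈ Ideal.span {p} := by
      rw [h]
      exact Ideal.mem_sup_right (Ideal.mem_span_singleton_self _)
    exact Ideal.mem_span_singleton.1 this
  have h2 : (1 : R) ∈ Ideal.span {p} ⊔ Ideal.span {x} := by rw [h1]; trivial
  obtain ⟨a, ha, b, hb, hab⟩ := Submodule.mem_sup.1 h2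
  obtain ⟨a', rfl⟩ := Ideal.mem_span_singleton'.1 ha
  obtain ⟨b', rfl⟩ := Ideal.mem_span_singleton'.1 hb
  exact ⟨b', a', by rw [add_comm]; exact hab⟩

/-- a conjugation stable ideal not contained in `(s)` comes from `R` -/
theorem eq_map [IsDedekindDomain R] (hp : Prime p) (h2u : IsUnit (2 : R)) {J : Ideal (Q R p)}
    (hs : ∀ z ∈ J, star z ∈ J) (hJs : ¬ J ≤ Ideal.span {(ω : Q R p)}) :
    J = (J.comap (algebraMap R (Q R p))).map (algebraMap R (Q R p)) := by
  obtain ⟨x, hxJ, hxs⟩ := SetLike.not_le_iff_exists.1 hJs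
  have hre := re_mem h2u hs
  have him : ∀ z ∈ J, p * z.im ∈ J.comap (algebraMap R (Q R p)) := by
    intro z hz
    have h1 := hre (z * ω) (J.mul_mem_right _ hz)
    rw [re_mul] at h1
    simpa using h1
  have hxn : norm x ∈ J.comap (algebraMap R (Q R p)) := by
    rw [Ideal.mem_comap, algebraMap_norm_eq_mul_star]
    exact J.mul_mem_right _ hxJ
  have hxp : ¬ p ∣ norm x := by
    intro h
    have h1 : (ω : Q R p) ∣ algebraMap R (Q R p) (norm x) := by
      rw [omega_dvd_iff]
      simpa using h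
    rw [algebraMap_norm_eq_mul_star] at h1
    rw [Ideal.mem_span_singleton] at hxs
    rcases (omega_prime hp).2.2 _ _ h1 with h2 | h2
    · exact hxs h2
    · exact hxs ((omega_dvd_star x).1 h2)
  obtain ⟨r, r', hr⟩ := bezout hp hxp
  have him' : ∀ z ∈ J, z.im ∈ J.comap (algebraMap R (Q R p)) := by
    intro z hz
    have h1 : z.im = (r * z.im) * norm x + r' * (p * z.im) := by
      calc z.im = z.im * 1 := (mul_one _).symm
        _ = _ := by rw [← hr]; ring
    rw [h1]
    exact Ideal.add_mem _ (Ideal.mul_mem_left _ _ hxn) (Ideal.mul_mem_left _ _ (him z hz))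
  apply le_antisymm
  · intro z hz
    rw [decomp z]
    exact Ideal.add_mem _ (Ideal.mem_map_of_mem _ (hre z hz))
      (Ideal.mul_mem_right _ _ (Ideal.mem_map_of_mem _ (him' z hz)))
  · exact Ideal.map_comap_le

theorem core (h2u : IsUnit (2 : R)) (hD : Deg F R D) {n : ℕ} (hn : Odd n) (hpn : D p = n)
    [IsDedekindDomain R] [IsDedekindDomain (Q R p)] (hp : Prime p) (hP : SqP R) :
    ∀ (N : ℕ) (k : R), D k = N → ∀ J : Ideal (Q R p),
      J ^ 2 = Ideal.span {algebraMap R (Q R p) k} →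
      ∃ (u m : R) (j : ℕ), IsUnit u ∧ k = u * p ^ j * m ^ 2 := by
  intro N
  induction N using Nat.strong_induction_on with
  | _ N ih =>
  intro k hk J hJ
  have hk0 : k ≠ 0 := by
    rintro rfl
    rw [(hD.bot 0).2 rfl] at hk
    exact absurd hk (WithBot.bot_ne_natCast N)
  by_cases hJs : J ≤ Ideal.span {(ω : Q R p)}
  · obtain ⟨J1, k1', hJ1, hk1, hJk⟩ := strip (omega_ne_zero hp) hJ hJs
    have h1 : (ω : Q R p) ∣ algebraMap R (Q R p) k := by
      rw [hk1, sq, mul_assoc]
      exact dvd_mul_right _ _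
    obtain ⟨k1, rfl⟩ := omega_dvd_algebraMap h1
    have h3 : k1' = algebraMap R (Q R p) k1 := by
      rw [omega_sq, map_mul] at hk1
      have h4 : algebraMap R (Q R p) p ≠ 0 := fun h => hp.1 (algebraMap_injective (by rw [h, map_zero]))
      exact (mul_left_cancel₀ h4 hk1).symm
    rw [h3] at hJk
    have hk1 : k1 ≠ 0 := fun h => hk0 (by rw [h, mul_zero])
    obtain ⟨N1, hN1⟩ := WithBot.ne_bot_iff_exists.1 (fun h => hk1 ((hD.bot k1).1 h))
    have h4 : N1 < N := by
      rw [hD.mul, hpn, ← hN1] at hk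
      have h5 : n + N1 = N :=
        WithBot.coe_inj.1 (show ((n + N1 : ℕ) : WithBot ℕ) = ((N : ℕ) : WithBot ℕ) from hk)
      obtain ⟨l, hl⟩ := hn
      omega
    obtain ⟨u, m, j, hu, hum⟩ := ih N1 h4 k1 hN1.symm J1 hJk
    exact ⟨u, m, j + 1, hu, by rw [hum]; ring⟩
  · have hJM := eq_map hp h2u (star_mem hJ) hJs
    rw [hJM, ← Ideal.map_pow] at hJ
    have hMk := contr_eq hJ
    obtain ⟨m, hm⟩ := hP _ ⟨⟨k, hMk⟩⟩
    change _ = Ideal.span {m} at hm
    rw [hm, Ideal.span_singleton_pow, Ideal.span_singleton_eq_span_singleton] at hMk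
    obtain ⟨v, hv⟩ := hMk
    exact ⟨v, m, 0, v.isUnit, by rw [← hv]; ring⟩

end Pool.Agent.H28.IQ
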