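import Pool.Agent.H28.IQ.Core

/-!
# The ramified quadratic extension is a Dedekind domain
-/

set_option autoImplicit false

namespace Pool.Agent.H28.IQ

open QuadraticAlgebra

variable {R : Type} [CommRing R]

theorem not_sq [IsDedekindDomain R] {p : R} (hp : Prime p) :
    Fact (∀ r : FractionRing R, r ^ 2 ≠ algebraMap R (FractionRing R) p + 0 * r) := by
  refine ⟨fun r h => ?_⟩
  rw [zero_mul, add_zero] at h
  have h1 : IsIntegral R r := by
    refine IsIntegral.of_pow two_pos ?_
    rw [h]
    exact isIntegral_algebraMap
  obtain ⟨a, ha⟩ := IsIntegrallyClosed.isIntegral_iff.1 h1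
  rw [← ha, ← map_pow] at h
  have h2 : a ^ 2 = p := IsFractionRing.injective R (FractionRing R) h
  have h3 := hp.irreducible
  rw [← h2, sq] at h3
  rcases h3.isUnit_or_isUnit rfl with h4 | h4
  · exact h3.1 (h4.mul h4)
  · exact h3.1 (h4.mul h4)

/-- the field of fractions of the quadratic extension -/
abbrev L (R : Type) [CommRing R] [IsDomain R] (p : R) : Type :=
  QuadraticAlgebra (FractionRing R) (algebraMap R (FractionRing R) p) 0

/-- the embedding into the field of fractions -/
def phi (R : Type) [CommRing R] [IsDomain R] (p : R) : Q R p →+* L R p where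
  toFun z := ⟨algebraMap R (FractionRing R) z.re, algebraMap R (FractionRing R) z.im⟩
  map_one' := by ext <;> simp
  map_mul' z w := by ext <;> simp
  map_zero' := by ext <;> simp
  map_add' z w := by ext <;> simp

theorem phi_injective [IsDomain R] (p : R) : Function.Injective (phi R p) := by
  intro z w h
  have h1 := congrArg QuadraticAlgebra.re h
  have h2 := congrArg QuadraticAlgebra.im h
  ext
  · exact IsFractionRing.injective R (FractionRing R) h1
  · exact IsFractionRing.injective R (FractionRing R) h2

theorem integrallyClosed [IsDedekindDomain R] {p : R} (hp : Prime p) (h2 : IsUnit (2 : R)) :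
    IsIntegrallyClosed (Q R p) := by
  haveI := not_sq hp
  letI : Algebra (Q R p) (L R p) := (phi R p).toAlgebra
  haveI : FaithfulSMul (Q R p) (L R p) :=
    (faithfulSMul_iff_algebraMap_injective _ _).2 (phi_injective p)
  haveI : IsScalarTower R (Q R p) (L R p) := IsScalarTower.of_algebraMap_eq fun r => by
    ext
    · change _ = algebraMap R (FractionRing R) (algebraMap R (Q R p) r).re
      rfl
    · change _ = algebraMap R (FractionRing R) (algebraMap R (Q R p) r).im
      rw [algebraMap_im, map_zero]
      rfl
  haveI : IsScalarTower R (FractionRing R) (L R p) := IsScalarTower.of_algebraMap_eq fun r => rfl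
  haveI : IsFractionRing (Q R p) (L R p) := by
    apply IsFractionRing.of_field
    intro z
    obtain ⟨a, b, hb, hab⟩ := IsFractionRing.div_surjective R z.re
    obtain ⟨c, d, hd, hcd⟩ := IsFractionRing.div_surjective R z.im
    have hb0 : algebraMap R (FractionRing R) b ≠ 0 :=
      IsFractionRing.to_map_ne_zero_of_mem_nonZeroDivisors hb
    have hd0 : algebraMap R (FractionRing R) d ≠ 0 :=
      IsFractionRing.to_map_ne_zero_of_mem_nonZeroDivisors hd
    refine ⟨⟨a * d, c * b⟩, algebraMap R (Q R p) (b * d), ?_⟩
    have h0 : algebraMap (Q R p) (L R p) (algebraMap R (Q R p) (b * d)) ≠ 0 := by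
      intro h
      have h1 := congrArg QuadraticAlgebra.re h
      change algebraMap R (FractionRing R) (b * d) = 0 at h1
      rw [map_mul] at h1
      exact mul_ne_zero hb0 hd0 h1
    rw [eq_div_iff h0]
    have h1 : algebraMap (Q R p) (L R p) (algebraMap R (Q R p) (b * d)) =
        ⟨algebraMap R (FractionRing R) (b * d), 0⟩ := by
      ext
      · rfl
      · change algebraMap R (FractionRing R) (algebraMap R (Q R p) (b * d)).im = 0
        rw [algebraMap_im, map_zero]
    rw [h1]
    ext
    · change _ = algebraMap R (FractionRing R) (a * d)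
      rw [re_mul, ← hab, map_mul, map_mul]
      field_simp
      ring
    · change _ = algebraMap R (FractionRing R) (c * b)
      rw [im_mul, ← hcd, map_mul, map_mul]
      field_simp
      ring
  rw [isIntegrallyClosed_iff (L R p)]
  intro x hx
  have hxR : IsIntegral R x := isIntegral_trans x hx
  let st : L R p →ₐ[R] L R p :=
    { starRingEnd (L R p) with
      commutes' := fun r => by
        ext
        · change (star (algebraMap R (L R p) r)).re = _
          rw [re_star, zero_mul, add_zero]
        · change (star (algebraMap R (L R p) r)).im = _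
          rw [im_star]
          change -(0 : FractionRing R) = 0
          rw [neg_zero] }
  have hsx : IsIntegral R (star x) := hxR.map st
  have hinj : Function.Injective (algebraMap (FractionRing R) (L R p)) := algebraMap_injective
  have ht : IsIntegral R (2 * x.re) := by
    have h3 : x + star x = algebraMap (FractionRing R) (L R p) (2 * x.re) := by
      ext
      · simp [two_mul]
      · simp
    have h4 := hxR.add hsx
    rw [h3] at h4
    exact (isIntegral_algebraMap_iff hinj).1 h4
  have hnm : IsIntegral R (norm x) := by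
    have h4 := hxR.mul hsx
    rw [← algebraMap_norm_eq_mul_star] at h4
    exact (isIntegral_algebraMap_iff hinj).1 h4
  obtain ⟨r0, hr0⟩ := IsIntegrallyClosed.isIntegral_iff.1 ht
  obtain ⟨r2, hr2⟩ := IsIntegrallyClosed.isIntegral_iff.1 hnm
  obtain ⟨v, hv⟩ := h2
  have hre : algebraMap R (FractionRing R) (↑v⁻¹ * r0) = x.re := by
    rw [map_mul, hr0]
    have h3 : algebraMap R (FractionRing R) ↑v⁻¹ * 2 = 1 := by
      have h5 : (2 : FractionRing R) = algebraMap R (FractionRing R) 2 := by rw [map_ofNat]
      rw [h5, ← hv, ← map_mul, Units.inv_mul, map_one]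
    rw [← mul_assoc, h3, one_mul]
  set r1 := ↑v⁻¹ * r0 with hr1
  have h3 : algebraMap R (FractionRing R) p * x.im ^ 2 =
      algebraMap R (FractionRing R) (r1 ^ 2 - r2) := by
    rw [map_sub, map_pow, hre, hr2, norm_def]
    ring
  have h4 : (algebraMap R (FractionRing R) p * x.im) ^ 2 =
      algebraMap R (FractionRing R) (p * (r1 ^ 2 - r2)) := by
    rw [map_mul, ← h3]
    ring
  have h5 : IsIntegral R (algebraMap R (FractionRing R) p * x.im) := by
    refine IsIntegral.of_pow two_pos ?_
    rw [h4]
    exact isIntegral_algebraMap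
  obtain ⟨r4, hr4⟩ := IsIntegrallyClosed.isIntegral_iff.1 h5
  have h6 : r4 ^ 2 = p * (r1 ^ 2 - r2) := by
    apply IsFractionRing.injective R (FractionRing R)
    rw [map_pow, hr4, h4]
  obtain ⟨r5, hr5⟩ := hp.dvd_of_dvd_pow (⟨_, h6⟩ : p ∣ r4 ^ 2)
  have h7 : algebraMap R (FractionRing R) r5 = x.im := by
    rw [hr5, map_mul] at hr4
    have hp0 : algebraMap R (FractionRing R) p ≠ 0 := by
      rw [Ne, IsFractionRing.to_map_eq_zero_iff]
      exact hp.1
    exact mul_left_cancel₀ hp0 hr4
  refine ⟨⟨r1, r5⟩, ?_⟩
  ext
  · exact hre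
  · exact h7

theorem dedekind [IsDedekindDomain R] {p : R} (hp : Prime p) (h2 : IsUnit (2 : R))
    (hdom : IsDomain (Q R p)) : IsDedekindDomain (Q R p) := by
  haveI := integrallyClosed hp h2
  haveI : IsNoetherianRing (Q R p) := IsNoetherianRing.of_finite R (Q R p)
  haveI : Ring.DimensionLEOne (Q R p) := by
    refine ⟨fun {P} hP0 hP => ?_⟩
    apply Ideal.isMaximal_of_isIntegral_of_isMaximal_comap (R := R) P
    obtain ⟨x, hx, hx0⟩ := Submodule.exists_mem_ne_zero_of_ne_bot hP0
    have h3 : Ideal.comap (algebraMap R (Q R p)) P ≠ ⊥ :=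
      Ideal.comap_ne_bot_of_integral_mem hx0 hx (Algebra.IsIntegral.isIntegral x)
    exact (Ideal.comap_isPrime (algebraMap R (Q R p)) P).isMaximal h3
  haveI : IsDedekindRing (Q R p) := { }
  exact { }

end Pool.Agent.H28.IQ
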