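import Mathlib

/-!
# Degree functions (pole order at the only place at infinity) and quadratic extensions
-/

set_option autoImplicit false

namespace Pool.Agent.H28.IQ

open QuadraticAlgebra

/-- the quadratic extension `R + R s`, `s ^ 2 = p` -/
abbrev Q (R : Type) [CommRing R] (p : R) : Type := QuadraticAlgebra R p 0

/-- a degree function on the `F`-algebra `R` -/
structure Deg (F R : Type) [Field F] [CommRing R] [Algebra F R] (D : R → WithBot ℕ) : Prop where
  mul : ∀ a b, D (a * b) = D a + D b
  add : ∀ a b, D (a + b) ≤ max (D a) (D b)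
  bot : ∀ a, D a = ⊥ ↔ a = 0
  zero : ∀ a, D a = 0 ↔ ∃ c : F, c ≠ 0 ∧ a = algebraMap F R c

variable {F R : Type} [Field F] [CommRing R] [Algebra F R] {D : R → WithBot ℕ}

theorem Deg.one (hD : Deg F R D) : D 1 = 0 :=
  (hD.zero 1).2 ⟨1, one_ne_zero, (map_one _).symm⟩

theorem Deg.neg (hD : Deg F R D) (a : R) : D (-a) = D a := by
  have h1 : D (-1) = 0 := (hD.zero (-1)).2 ⟨-1, neg_ne_zero.2 one_ne_zero, by rw [map_neg, map_one]⟩
  have h2 : -a = -1 * a := by ring
  rw [h2, hD.mul, h1, zero_add]

theorem Deg.nontrivial (hD : Deg F R D) : Nontrivial R := by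
  refine ⟨1, 0, fun h => ?_⟩
  have h1 := hD.one
  rw [(hD.bot 1).2 h] at h1
  exact absurd h1 (by simp)

theorem Deg.isDomain (hD : Deg F R D) : IsDomain R := by
  have := hD.nontrivial
  have : NoZeroDivisors R := by
    refine ⟨fun {a b} h => ?_⟩
    have h1 : D a + D b = ⊥ := by rw [← hD.mul, (hD.bot _).2 h]
    rcases WithBot.add_eq_bot.1 h1 with h2 | h2
    · exact Or.inl ((hD.bot a).1 h2)
    · exact Or.inr ((hD.bot b).1 h2)
  exact NoZeroDivisors.to_isDomain R

theorem Deg.add_eq_of_lt (hD : Deg F R D) {a b : R} (h : D b < D a) : D (a + b) = D a := by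
  apply le_antisymm
  · exact (hD.add a b).trans (max_le le_rfl h.le)
  · have h1 : D a ≤ max (D (a + b)) (D (-b)) := by
      have := hD.add (a + b) (-b)
      rwa [add_neg_cancel_right] at this
    rw [hD.neg] at h1
    rcases le_max_iff.1 h1 with h2 | h2
    · exact h2
    · exact absurd h2 (not_le.2 h)

theorem Deg.sub_eq_max (hD : Deg F R D) {a b : R} (h : D a ≠ D b) : D (a - b) = max (D a) (D b) := by
  rcases lt_or_gt_of_ne h with h1 | h1
  · rw [max_eq_right h1.le, ← neg_sub, hD.neg, sub_eq_add_neg]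
    exact hD.add_eq_of_lt (by rwa [hD.neg])
  · rw [max_eq_left h1.le, sub_eq_add_neg]
    exact hD.add_eq_of_lt (by rwa [hD.neg])

theorem parity {x y : WithBot ℕ} {n : ℕ} (hn : Odd n) (h : x + x = n + (y + y)) : x = ⊥ ∧ y = ⊥ := by
  cases x with
  | bot =>
    refine ⟨rfl, ?_⟩
    rw [WithBot.bot_add] at h
    rcases WithBot.add_eq_bot.1 h.symm with h1 | h1
    · exact absurd h1 (WithBot.natCast_ne_bot n)
    · rcases WithBot.add_eq_bot.1 h1 with h2 | h2 <;> exact h2
  | coe x =>
    exfalso
    cases y with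
    | bot =>
      rw [WithBot.bot_add, WithBot.add_bot] at h
      exact absurd h (by rw [← WithBot.coe_add]; exact WithBot.coe_ne_bot)
    | coe y =>
      have h1 : x + x = n + (y + y) :=
        WithBot.coe_inj.1 (show ((x + x : ℕ) : WithBot ℕ) = ((n + (y + y) : ℕ) : WithBot ℕ) from h)
      obtain ⟨k, hk⟩ := hn
      omega

/-- the degree function on the quadratic extension -/
def D' (D : R → WithBot ℕ) (p : R) (z : Q R p) : WithBot ℕ := D (norm z)

theorem norm_eq {p : R} (z : Q R p) : norm z = z.re ^ 2 - p * z.im ^ 2 := by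
  rw [norm_def]
  ring

theorem Deg.norm (hD : Deg F R D) {p : R} {n : ℕ} (hn : Odd n) (hp : D p = n) (z : Q R p) :
    D' D p z = max (D z.re + D z.re) (n + (D z.im + D z.im)) := by
  have h1 : D (z.re ^ 2) = D z.re + D z.re := by rw [sq, hD.mul]
  have h2 : D (p * z.im ^ 2) = n + (D z.im + D z.im) := by rw [sq, hD.mul, hD.mul, hp]
  unfold D'
  rw [norm_eq]
  by_cases h : D (z.re ^ 2) = D (p * z.im ^ 2)
  · have h3 : D z.re + D z.re = n + (D z.im + D z.im) := by rw [← h1, ← h2, h]
    obtain ⟨h4, h5⟩ := parity hn h3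
    rw [h4, h5, (hD.bot _).1 h4, (hD.bot _).1 h5]
    simp [(hD.bot _).2]
  · rw [hD.sub_eq_max h, h1, h2]

theorem Deg.quad (hD : Deg F R D) {p : R} {n : ℕ} (hn : Odd n) (hp : D p = n) :
    Deg F (Q R p) (D' D p) where
  mul z w := by
    unfold D'
    rw [map_mul, hD.mul]
  add z w := by
    rw [hD.norm hn hp, hD.norm hn hp, hD.norm hn hp, re_add, im_add]
    have h1 := hD.add z.re w.re
    have h2 := hD.add z.im w.im
    have h3 : D (z.re + w.re) + D (z.re + w.re) ≤ max (D z.re + D z.re) (D w.re + D w.re) := by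
      rcases le_total (D z.re) (D w.re) with h | h
      · rw [max_eq_right h] at h1
        exact (add_le_add h1 h1).trans (le_max_right _ _)
      · rw [max_eq_left h] at h1
        exact (add_le_add h1 h1).trans (le_max_left _ _)
    have h4 : (n : WithBot ℕ) + (D (z.im + w.im) + D (z.im + w.im)) ≤
        max (n + (D z.im + D z.im)) (n + (D w.im + D w.im)) := by
      rcases le_total (D z.im) (D w.im) with h | h
      · rw [max_eq_right h] at h2
        exact (add_le_add le_rfl (add_le_add h2 h2)).trans (le_max_right _ _)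
      · rw [max_eq_left h] at h2
        exact (add_le_add le_rfl (add_le_add h2 h2)).trans (le_max_left _ _)
    refine max_le (h3.trans ?_) (h4.trans ?_)
    · exact max_le ((le_max_left _ _).trans (le_max_left _ _))
        ((le_max_left _ _).trans (le_max_right _ _))
    · exact max_le ((le_max_right _ _).trans (le_max_left _ _))
        ((le_max_right _ _).trans (le_max_right _ _))
  bot z := by
    rw [hD.norm hn hp]
    constructor
    · intro h
      have h1 : D z.re + D z.re = ⊥ := le_bot_iff.1 (h ▸ le_max_left _ _)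
      have h2 : (n : WithBot ℕ) + (D z.im + D z.im) = ⊥ := le_bot_iff.1 (h ▸ le_max_right _ _)
      have h3 : D z.re = ⊥ := by rcases WithBot.add_eq_bot.1 h1 with h | h <;> exact h
      have h4 : D z.im = ⊥ := by
        rcases WithBot.add_eq_bot.1 h2 with h | h
        · exact absurd h (WithBot.natCast_ne_bot n)
        · rcases WithBot.add_eq_bot.1 h with h | h <;> exact h
      ext
      · exact (hD.bot _).1 h3
      · exact (hD.bot _).1 h4
    · rintro rfl
      have h0 : D (0 : R) = ⊥ := (hD.bot 0).2 rfl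
      simp [h0]
  zero z := by
    rw [hD.norm hn hp]
    constructor
    · intro h
      have h1 : D z.im = ⊥ := by
        by_contra h0
        have h2 : (n : WithBot ℕ) + (D z.im + D z.im) ≤ 0 := h ▸ le_max_right _ _
        obtain ⟨k, hk⟩ := WithBot.ne_bot_iff_exists.1 h0
        rw [← hk] at h2
        have h3 : n + (k + k) ≤ 0 :=
          WithBot.coe_le_coe.1 (show ((n + (k + k) : ℕ) : WithBot ℕ) ≤ ((0 : ℕ) : WithBot ℕ) from h2)
        obtain ⟨l, hl⟩ := hn
        omega
      rw [h1, WithBot.bot_add, WithBot.add_bot, max_bot_right] at h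
      have h2 : D z.re = 0 := by
        cases hz : D z.re with
        | bot => rw [hz, WithBot.bot_add] at h; exact absurd h (by simp)
        | coe k =>
          rw [hz] at h
          have h3 : k + k = 0 :=
            WithBot.coe_inj.1 (show ((k + k : ℕ) : WithBot ℕ) = ((0 : ℕ) : WithBot ℕ) from h)
          have h4 : k = 0 := by omega
          rw [h4]
          rfl
      obtain ⟨c, hc0, hc⟩ := (hD.zero _).1 h2
      refine ⟨c, hc0, ?_⟩
      ext
      · rw [hc, IsScalarTower.algebraMap_apply F R (Q R p)]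
        rfl
      · rw [(hD.bot _).1 h1, IsScalarTower.algebraMap_apply F R (Q R p)]
        rfl
    · rintro ⟨c, hc0, rfl⟩
      rw [IsScalarTower.algebraMap_apply F R (Q R p)]
      have h1 : D (algebraMap F R c) = 0 := (hD.zero _).2 ⟨c, hc0, rfl⟩
      have h0 : D (0 : R) = ⊥ := (hD.bot 0).2 rfl
      rw [algebraMap_re, algebraMap_im, h1, h0]
      simp

theorem Deg.omega (hD : Deg F R D) {p : R} {n : ℕ} (hp : D p = n) :
    D' D p (ω : Q R p) = n := by
  unfold D'
  rw [norm_eq]
  have h0 : (ω : Q R p).re ^ 2 - p * (ω : Q R p).im ^ 2 = -p := by simp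
  rw [h0, hD.neg, hp]

end Pool.Agent.H28.IQ
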