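import Pool.Agent.H28.IQ.Good

/-!
# The dimension of `R / (z)`
-/

set_option autoImplicit false

namespace Pool.Agent.H28.IQ

open QuadraticAlgebra Polynomial
open scoped Pointwise

/-- the dimension of `R / (z)` over `F` -/
noncomputable def ell (F : Type) {R : Type} [Field F] [CommRing R] [Algebra F R] (z : R) : ℕ∞ :=
  Module.length F (R ⧸ Ideal.span {z})

variable {F R R' : Type} [Field F] [CommRing R] [Algebra F R] [CommRing R'] [Algebra F R']

theorem ell_mul [IsDomain R] (a : R) {b : R} (hb : b ≠ 0) :
    ell F (a * b) = ell F a + ell F b := by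
  have h1 := Module.length_eq_add_of_exact
    ((Ideal.mulQuot b (Ideal.span {a})).restrictScalars F)
    ((Ideal.quotOfMul b (Ideal.span {a})).restrictScalars F)
    (Ideal.mulQuot_injective (Ideal.span {a}) (mem_nonZeroDivisors_of_ne_zero hb))
    (Ideal.quotOfMul_surjective (Ideal.span {a}))
    (Ideal.exact_mulQuot_quotOfMul (Ideal.span {a}))
  have lem : (({b} : Set R) • Ideal.span {a}) = Ideal.span {b * a} := by
    simp [← Ideal.submodule_span_eq, Submodule.set_smul_span]
  have h2 : (({b} : Set R) • Ideal.span {a}) = b • Ideal.span {a} := Submodule.singleton_set_smul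
    (Ideal.span {a}) b
  rw [h2] at lem
  unfold ell
  rw [← h1, lem, mul_comm]

theorem ell_of_equiv (e : R ≃ₐ[F] R') (z : R) : ell F (e z) = ell F z := by
  unfold ell
  refine (LinearEquiv.length_eq (Ideal.quotientEquivAlg (Ideal.span {z}) (Ideal.span {e z}) e
    ?_).toLinearEquiv).symm
  rw [Ideal.map_span, Set.image_singleton]
  rfl

/-- the conjugation -/
def conj (F : Type) {R : Type} [Field F] [CommRing R] [Algebra F R] (p : R) :
    Q R p ≃ₐ[F] Q R p where
  toFun z := star z
  invFun z := star z
  left_inv z := star_star z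
  right_inv z := star_star z
  map_mul' z w := by rw [star_mul, mul_comm]
  map_add' z w := star_add z w
  commutes' r := by
    ext
    · change (algebraMap F R r) + 0 * 0 = _
      rw [zero_mul, add_zero]
      rfl
    · change -(0 : R) = _
      rw [neg_zero]
      rfl

theorem ell_star {p : R} (z : Q R p) : ell F (star z) = ell F z :=
  ell_of_equiv (conj F p) z

/-- the two coordinates -/
def coords (F : Type) {R : Type} [Field F] [CommRing R] [Algebra F R] (p a : R) :
    Q R p →ₗ[F] (R ⧸ Ideal.span {a}) × (R ⧸ Ideal.span {a}) where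
  toFun z := (Ideal.Quotient.mk _ z.re, Ideal.Quotient.mk _ z.im)
  map_add' z w := by
    rw [re_add, im_add, map_add, map_add]
    rfl
  map_smul' c z := by
    rw [re_smul, im_smul]
    rfl

theorem ell_algebraMap {p : R} (a : R) :
    ell F (algebraMap R (Q R p) a) = ell F a + ell F a := by
  have hker : ((Ideal.span {algebraMap R (Q R p) a}).restrictScalars F) =
      LinearMap.ker (coords F p a) := by
    ext z
    rw [Submodule.restrictScalars_mem, Ideal.mem_span_singleton, LinearMap.mem_ker]
    change _ ↔ (Ideal.Quotient.mk _ z.re, Ideal.Quotient.mk _ z.im) = (0, 0)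
    rw [Prod.mk.injEq, Ideal.Quotient.eq_zero_iff_mem, Ideal.Quotient.eq_zero_iff_mem,
      Ideal.mem_span_singleton, Ideal.mem_span_singleton]
    exact algebraMap_dvd_iff
  have hsurj : Function.Surjective (coords F p a) := by
    rintro ⟨u, v⟩
    obtain ⟨u, rfl⟩ := Ideal.Quotient.mk_surjective u
    obtain ⟨v, rfl⟩ := Ideal.Quotient.mk_surjective v
    exact ⟨⟨u, v⟩, rfl⟩
  unfold ell
  rw [← Module.length_prod]
  have e1 : (Q R p ⧸ Ideal.span {algebraMap R (Q R p) a}) ≃ₗ[F]
      (Q R p ⧸ (Ideal.span {algebraMap R (Q R p) a}).restrictScalars F) :=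
    (Submodule.Quotient.restrictScalarsEquiv F _).symm
  have e2 : (Q R p ⧸ (Ideal.span {algebraMap R (Q R p) a}).restrictScalars F) ≃ₗ[F]
      (Q R p ⧸ LinearMap.ker (coords F p a)) := Submodule.quotEquivOfEq _ _ hker
  have e3 := LinearMap.quotKerEquivOfSurjective (coords F p a) hsurj
  exact LinearEquiv.length_eq (e1.trans (e2.trans e3))

theorem ell_norm {p : R} (hQ : IsDomain (Q R p)) {z : Q R p} (hz : z ≠ 0) {n : ℕ}
    (h : ell F (norm z) = n) : ell F z = n := by
  have h1 : ell F (z * star z) = ell F z + ell F z := by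
    rw [ell_mul z (star_ne_zero.2 hz), ell_star]
  rw [← algebraMap_norm_eq_mul_star, ell_algebraMap, h] at h1
  have h2 : ell F z ≠ ⊤ := by
    intro h3
    rw [h3, top_add] at h1
    exact absurd h1 (by exact_mod_cast ENat.natCast_ne_top (n + n))
  obtain ⟨m, hm⟩ := ENat.ne_top_iff_exists.1 h2
  rw [← hm] at h1 ⊢
  have h3 : n + n = m + m := by exact_mod_cast h1
  have h4 : m = n := by omega
  rw [h4]

end Pool.Agent.H28.IQ
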