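import Pool.Agent.H28.IQ.Sq

/-!
# The fibre `t = 0` of `T(t) = g(x)`
-/

set_option autoImplicit false

namespace Pool.Agent.H28.IQ

open Polynomial

variable {F : Type} [Field F]

theorem ev_aux (g T : F[X]) :
    aeval (0 : AdjoinRoot (g - C (T.eval 0))) T = aeval (AdjoinRoot.root (g - C (T.eval 0))) g := by
  have h1 : aeval (AdjoinRoot.root (g - C (T.eval 0))) (g - C (T.eval 0)) = 0 := by
    rw [AdjoinRoot.aeval_eq, AdjoinRoot.mk_self]
  rw [map_sub, aeval_C, sub_eq_zero] at h1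
  rw [h1]
  have h2 : (0 : AdjoinRoot (g - C (T.eval 0))) = algebraMap F _ 0 := (map_zero _).symm
  rw [h2, aeval_algebraMap_apply_eq_algebraMap_eval]

/-- evaluation at `t = 0` -/
noncomputable def ev (g T : F[X]) : A g T →ₐ[F] AdjoinRoot (g - C (T.eval 0)) :=
  lft g T (AdjoinRoot.root (g - C (T.eval 0))) 0 (ev_aux g T)

theorem ev_cx (g T : F[X]) : ev g T (cx g T) = AdjoinRoot.root (g - C (T.eval 0)) := lft_cx _ _ _ _ _

theorem ev_ct (g T : F[X]) : ev g T (ct g T) = 0 := lft_ct _ _ _ _ _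

theorem ct_dvd_sub (g T : F[X]) : ct g T ∣ aeval (cx g T) (g - C (T.eval 0)) := by
  have h1 : aeval (cx g T) (g - C (T.eval 0)) = aeval (ct g T) (T - C (T.eval 0)) := by
    rw [map_sub, map_sub, rel, aeval_C, aeval_C]
  rw [h1]
  have h2 : (X : F[X]) ∣ T - C (T.eval 0) := by
    rw [X_dvd_iff, coeff_sub, coeff_C_zero, coeff_zero_eq_eval_zero, sub_self]
  obtain ⟨R, hR⟩ := h2
  rw [hR, map_mul, aeval_X]
  exact dvd_mul_right _ _

theorem ct_dvd_iff (g T : F[X]) (z : A g T) : ct g T ∣ z ↔ ev g T z = 0 := by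
  constructor
  · rintro ⟨w, rfl⟩
    rw [map_mul, ev_ct, zero_mul]
  · intro hz
    obtain ⟨P, rfl⟩ := AdjoinRoot.mk_surjective z
    have h1 : AdjoinRoot.mk (PP g T) P =
        ct g T * AdjoinRoot.mk (PP g T) P.divX + aeval (cx g T) (P.coeff 0) := by
      conv_lhs => rw [← P.divX_mul_X_add]
      rw [map_add, map_mul, AdjoinRoot.mk_X, AdjoinRoot.mk_C, of_eq, mul_comm]
      rfl
    rw [h1, map_add, map_mul, ev_ct, zero_mul, zero_add, ← aeval_algHom_apply, ev_cx,
      AdjoinRoot.aeval_eq, AdjoinRoot.mk_eq_zero] at hz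
    obtain ⟨R, hR⟩ := hz
    rw [h1]
    refine dvd_add (dvd_mul_right _ _) ?_
    rw [hR, map_mul]
    exact (ct_dvd_sub g T).mul_right _

theorem ct_prime {g T : F[X]} (h0 : ct g T ≠ 0) (hirr : Irreducible (g - C (T.eval 0))) :
    Prime (ct g T) := by
  have : Fact (Irreducible (g - C (T.eval 0))) := ⟨hirr⟩
  refine ⟨h0, ?_, ?_⟩
  · intro hu
    have h1 := hu.map (ev g T)
    rw [ev_ct] at h1
    exact not_isUnit_zero h1
  · intro a b hab
    rw [ct_dvd_iff, map_mul, mul_eq_zero] at hab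
    rw [ct_dvd_iff, ct_dvd_iff]
    exact hab

theorem isSquare_of_sq {K : Type} [Field K] [Algebra F K] (hodd : Odd (Module.finrank F K))
    {c : F} {y : K} (h : y ^ 2 = algebraMap F K c) : IsSquare c := by
  by_cases hc : c = 0
  · rw [hc]
    exact IsSquare.zero
  · have h1 := congrArg (Algebra.norm F) h
    rw [map_pow, Algebra.norm_algebraMap] at h1
    obtain ⟨k, hk⟩ := hodd
    refine ⟨Algebra.norm F y / c ^ k, ?_⟩
    have hck : c ^ k ≠ 0 := pow_ne_zero _ hc
    rw [div_mul_div_comm, eq_div_iff (mul_ne_zero hck hck), ← sq (Algebra.norm F y), h1, hk]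
    ring

theorem ct_square {g T : F[X]} (hg : Odd g.natDegree) (hirr : Irreducible (g - C (T.eval 0)))
    (c : F) (a m : A g T) (hm : ¬ ct g T ∣ m)
    (h : ct g T ∣ a ^ 2 - algebraMap F (A g T) c * m ^ 2) : IsSquare c := by
  have : Fact (Irreducible (g - C (T.eval 0))) := ⟨hirr⟩
  rw [ct_dvd_iff] at h hm
  rw [map_sub, map_mul, map_pow, map_pow, AlgHom.commutes, sub_eq_zero] at h
  have hdeg : (g - C (T.eval 0)).natDegree = g.natDegree := natDegree_sub_C
  have hfin : Module.finrank F (AdjoinRoot (g - C (T.eval 0))) = g.natDegree := by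
    rw [← hdeg]
    exact finrank_quotient_span_eq_natDegree
  refine isSquare_of_sq (K := AdjoinRoot (g - C (T.eval 0))) (by rwa [hfin])
    (y := ev g T a / ev g T m) ?_
  rw [div_pow, div_eq_iff (pow_ne_zero 2 hm), h]

theorem good_square' (h2 : (2 : F) ≠ 0) {g T : F[X]} (hg : Odd g.natDegree)
    (h : Good F (A g T) (ct g T)) (hirr : Irreducible (g - C (T.eval 0))) :
    Good F (A g (T.comp (X ^ 2))) (ct g (T.comp (X ^ 2))) := by
  refine good_square h2 h (ct_prime ?_ hirr) (ct_square hg hirr)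
  obtain ⟨_, _, D, n, hD, hn, hDt⟩ := h
  intro h0
  rw [(hD.bot _).2 h0] at hDt
  exact WithBot.natCast_ne_bot n hDt.symm

end Pool.Agent.H28.IQ
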