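import Pool.Agent.H28.IQ.Dim
import Pool.Agent.H28.IQ.Fib

/-!
# The tower, intrinsic form
-/

set_option autoImplicit false

namespace Pool.Agent.H28.IQ

open QuadraticAlgebra Polynomial

/-- the properties which are inherited in the tower -/
structure Gd (F R : Type) [Field F] [CommRing R] [Algebra F R] : Prop where
  ded : IsDedekindDomain R
  sqp : SqP R
  deg : ∃ D : R → WithBot ℕ, Deg F R D ∧ ∀ z : R, z ≠ 0 → ∃ n : ℕ, ell F z = n ∧ D z = n

variable {F R R' : Type} [Field F] [CommRing R] [Algebra F R] [CommRing R'] [Algebra F R']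

theorem Gd.of_equiv (h : Gd F R) (e : R ≃ₐ[F] R') : Gd F R' := by
  obtain ⟨hded, hsqp, D, hD, hell⟩ := h
  refine ⟨isDedekindDomain_of_equiv e.toRingEquiv hded, sqP_of_equiv e.toRingEquiv hsqp,
    fun x => D (e.symm x), ?_, ?_⟩
  · exact {
      mul := fun a b => by rw [map_mul, hD.mul]
      add := fun a b => by rw [map_add]; exact hD.add _ _
      bot := fun a => by rw [hD.bot, map_eq_zero_iff e.symm e.symm.injective]
      zero := fun a => by
        rw [hD.zero]
        constructor
        · rintro ⟨c, hc, hac⟩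
          exact ⟨c, hc, by rw [← e.apply_symm_apply a, hac, e.commutes]⟩
        · rintro ⟨c, hc, rfl⟩
          exact ⟨c, hc, e.symm.commutes c⟩ }
  · intro z hz
    have h1 : e.symm z ≠ 0 := by rwa [Ne, map_eq_zero_iff e.symm e.symm.injective]
    obtain ⟨n, hn, hn'⟩ := hell _ h1
    refine ⟨n, ?_, hn'⟩
    rw [← hn, ell_of_equiv e.symm]

/-- one step of the tower: adjoining the square root of a prime element with residue field of odd
degree -/
theorem Gd.quad (h2 : (2 : F) ≠ 0) (h : Gd F R) {p : R} (hp : Prime p) {n : ℕ} (hn : Odd n)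
    (hpn : ell F p = n) : Gd F (Q R p) := by
  obtain ⟨hded, hsqp, D, hD, hell⟩ := h
  obtain ⟨n', hn1, hDp⟩ := hell p hp.1
  rw [hpn] at hn1
  have hnn : n = n' := by exact_mod_cast hn1
  rw [← hnn] at hDp
  have hQ := hD.quad hn hDp
  have hQd := hQ.isDomain
  have h2u : IsUnit (2 : R) := by
    have h1 : (2 : R) = algebraMap F R 2 := by rw [map_ofNat]
    rw [h1]
    exact (IsUnit.mk0 _ h2).map _
  have hdd := dedekind hp h2u hQd
  -- the residue field
  have hS : ∀ c : F, ∀ a m : R, ¬ p ∣ m → p ∣ a ^ 2 - algebraMap F R c * m ^ 2 → IsSquare c := by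
    intro c a m hm ham
    have hmax : (Ideal.span {p}).IsMaximal := by
      have h1 : (Ideal.span {p}).IsPrime := (Ideal.span_singleton_prime hp.1).2 hp
      refine h1.isMaximal ?_
      rw [Ne, Ideal.span_singleton_eq_bot]
      exact hp.1
    let _ : Field (R ⧸ Ideal.span {p}) := Ideal.Quotient.field _
    have h3 : Module.finrank F (R ⧸ Ideal.span {p}) = n := by
      have h4 : Module.Finite F (R ⧸ Ideal.span {p}) := by
        have h5 : Module.length F (R ⧸ Ideal.span {p}) ≠ ⊤ := by
          change ell F p ≠ ⊤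
          rw [hpn]
          exact ENat.natCast_ne_top n
        rw [Module.length_ne_top_iff] at h5
        have h6 := (isFiniteLength_iff_isNoetherian_isArtinian.1 h5).1
        infer_instance
      have h5 := Module.length_eq_finrank F (R ⧸ Ideal.span {p})
      change ell F p = _ at h5
      rw [hpn] at h5
      exact_mod_cast h5.symm
    have hm0 : (Ideal.Quotient.mk (Ideal.span {p}) m) ≠ 0 := by
      rw [Ne, Ideal.Quotient.eq_zero_iff_mem, Ideal.mem_span_singleton]
      exact hm
    refine isSquare_of_sq (K := R ⧸ Ideal.span {p}) (by rw [h3]; exact hn)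
      (y := Ideal.Quotient.mk _ a / Ideal.Quotient.mk _ m) ?_
    rw [div_pow, div_eq_iff (pow_ne_zero 2 hm0), ← sub_eq_zero, ← map_pow, ← map_pow]
    have h7 : algebraMap F (R ⧸ Ideal.span {p}) c = Ideal.Quotient.mk _ (algebraMap F R c) := rfl
    rw [h7, ← map_mul, ← map_sub, Ideal.Quotient.eq_zero_iff_mem, Ideal.mem_span_singleton]
    exact ham
  refine ⟨hdd, step h2u hD hn hDp hp hsqp hS, D' D p, hQ, ?_⟩
  intro z hz
  have hnz : norm z ≠ 0 := by
    intro h0
    have h1 : z * star z = 0 := by rw [← algebraMap_norm_eq_mul_star, h0, map_zero]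
    rcases mul_eq_zero.1 h1 with h3 | h3
    · exact hz h3
    · exact hz (star_eq_zero.1 h3)
  obtain ⟨m, hm, hm'⟩ := hell (norm z) hnz
  exact ⟨m, ell_norm hQd hz hm, hm'⟩

theorem ell_poly {f : F[X]} (hf : f ≠ 0) : ell F f = f.natDegree := by
  unfold ell
  have h1 : Module.Finite F (F[X] ⧸ Ideal.span {f}) := by
    have := (AdjoinRoot.powerBasis hf).finite
    exact this
  rw [Module.length_eq_finrank, finrank_quotient_span_eq_natDegree]

theorem gd_poly : Gd F F[X] := by
  refine ⟨inferInstance, ?_, degree, ?_, ?_⟩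
  · intro I _
    exact IsPrincipalIdealRing.principal I
  · exact {
      mul := fun a b => degree_mul
      add := fun a b => degree_add_le a b
      bot := fun a => degree_eq_bot
      zero := fun a => by
        constructor
        · intro h
          have h1 := eq_C_of_degree_eq_zero h
          refine ⟨a.coeff 0, ?_, h1⟩
          intro h2
          rw [h2, map_zero] at h1
          rw [h1, degree_zero] at h
          exact absurd h (by simp)
        · rintro ⟨c, hc, rfl⟩
          exact degree_C hc }
  · intro z hz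
    exact ⟨z.natDegree, ell_poly hz, degree_eq_natDegree hz⟩

end Pool.Agent.H28.IQ
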