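import Pool.Agent.H28.IQ.Step
import Pool.Agent.H28.IQ.Ded

/-!
# The tower
-/

set_option autoImplicit false

namespace Pool.Agent.H28.IQ

open QuadraticAlgebra Polynomial

/-- the properties which are inherited in the tower: `t` is the new coordinate -/
structure Good (F R : Type) [Field F] [CommRing R] [Algebra F R] (t : R) : Prop where
  ded : IsDedekindDomain R
  sqp : SqP R
  deg : ∃ (D : R → WithBot ℕ) (n : ℕ), Deg F R D ∧ Odd n ∧ D t = n

variable {F R R' : Type} [Field F] [CommRing R] [Algebra F R] [CommRing R'] [Algebra F R']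

theorem isDedekindDomain_of_equiv (e : R ≃+* R') (h : IsDedekindDomain R) : IsDedekindDomain R' := by
  haveI : IsDomain R' := Function.Injective.isDomain (e.symm : R' →+* R) e.symm.injective
  haveI : IsIntegrallyClosed R' := IsIntegrallyClosed.of_equiv e
  haveI : IsNoetherianRing R' := isNoetherianRing_of_ringEquiv R e
  haveI : Ring.DimensionLEOne R' := by
    refine ⟨fun {P} hP0 hP => ?_⟩
    have h1 : (P.comap (e : R →+* R')) ≠ ⊥ := by
      obtain ⟨x, hx, hx0⟩ := Submodule.exists_mem_ne_zero_of_ne_bot hP0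
      intro hb
      have h2 : e.symm x ∈ P.comap (e : R →+* R') := by
        rw [Ideal.mem_comap]
        simpa using hx
      rw [hb, Ideal.mem_bot] at h2
      exact hx0 (by simpa using congrArg e h2)
    have h2 : (P.comap (e : R →+* R')).IsMaximal := (Ideal.comap_isPrime (e : R →+* R') P).isMaximal h1
    have h3 : P = (P.comap (e : R →+* R')).map (e : R →+* R') :=
      (Ideal.map_comap_of_surjective (e : R →+* R') e.surjective P).symm
    rw [h3]
    exact Ideal.map_isMaximal_of_equiv e
  haveI : IsDedekindRing R' := { }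
  exact { }

theorem comap_eq_map (e : R ≃+* R') (J : Ideal R') :
    J.comap (e : R →+* R') = J.map (e.symm : R' →+* R) := by
  apply le_antisymm
  · intro x hx
    have h1 : (e.symm : R' →+* R) (e x) ∈ J.map (e.symm : R' →+* R) :=
      Ideal.mem_map_of_mem _ (Ideal.mem_comap.1 hx)
    simpa using h1
  · rw [Ideal.map_le_iff_le_comap]
    intro x hx
    rw [Ideal.mem_comap, Ideal.mem_comap]
    simpa using hx

theorem sqP_of_equiv (e : R ≃+* R') (h : SqP R) : SqP R' := by
  intro I hI
  have h1 : (I.comap (e : R →+* R')) ^ 2 = (I ^ 2).comap (e : R →+* R') := by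
    rw [comap_eq_map, comap_eq_map, Ideal.map_pow]
  obtain ⟨⟨a, ha⟩⟩ := hI
  change I ^ 2 = Ideal.span {a} at ha
  obtain ⟨⟨b, hb⟩⟩ := h (I.comap (e : R →+* R')) ⟨⟨e.symm a, by
    change _ = Ideal.span {e.symm a}
    rw [h1, ha, comap_eq_map, Ideal.map_span, Set.image_singleton]
    rfl⟩⟩
  change I.comap (e : R →+* R') = Ideal.span {b} at hb
  refine ⟨⟨e b, ?_⟩⟩
  change I = Ideal.span {e b}
  rw [← Ideal.map_comap_of_surjective (e : R →+* R') e.surjective I, hb, Ideal.map_span,
    Set.image_singleton]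
  rfl

theorem Good.of_equiv {t : R} {t' : R'} (h : Good F R t) (e : R ≃ₐ[F] R') {α β : F} (hα : α ≠ 0)
    (ht : t' = algebraMap F R' α * e t + algebraMap F R' β) : Good F R' t' := by
  obtain ⟨hded, hsqp, D, n, hD, hn, hDt⟩ := h
  refine ⟨isDedekindDomain_of_equiv e.toRingEquiv hded, sqP_of_equiv e.toRingEquiv hsqp,
    fun x => D (e.symm x), n, ?_, hn, ?_⟩
  · exact {
      mul := fun a b => by rw [map_mul, hD.mul]
      add := fun a b => by rw [map_add]; exact hD.add _ _
      bot := fun a => by rw [hD.bot, map_eq_zero_iff e.symm e.symm.injective]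
      zero := fun a => by
        rw [hD.zero]
        constructor
        · rintro ⟨c, hc, hac⟩
          exact ⟨c, hc, by rw [← e.apply_symm_apply a, hac, e.commutes]⟩
        · rintro ⟨c, hc, rfl⟩
          exact ⟨c, hc, e.symm.commutes c⟩ }
  · have h1 : e.symm t' = algebraMap F R α * t + algebraMap F R β := by
      rw [ht, map_add, map_mul, e.symm.commutes, e.symm.commutes, e.symm_apply_apply]
    have h2 : D (algebraMap F R α * t) = n := by
      rw [hD.mul, hDt, (hD.zero _).2 ⟨α, hα, rfl⟩, zero_add]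
    change D (e.symm t') = n
    rw [h1, ← h2]
    by_cases hβ : β = 0
    · rw [hβ, map_zero, add_zero]
    · apply hD.add_eq_of_lt
      rw [h2, (hD.zero _).2 ⟨β, hβ, rfl⟩]
      have hn0 : 0 < n := hn.pos
      exact_mod_cast hn0

/-- one step of the tower -/
theorem Good.quad (h2 : (2 : F) ≠ 0) {t : R} (h : Good F R t) (hp : Prime t)
    (hS : ∀ c : F, ∀ a m : R, ¬ t ∣ m → t ∣ a ^ 2 - algebraMap F R c * m ^ 2 → IsSquare c) :
    Good F (Q R t) (ω : Q R t) := by
  obtain ⟨hded, hsqp, D, n, hD, hn, hDt⟩ := h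
  have hQ := hD.quad hn hDt
  have h2u : IsUnit (2 : R) := by
    have h1 : (2 : R) = algebraMap F R 2 := by rw [map_ofNat]
    rw [h1]
    exact (IsUnit.mk0 _ h2).map _
  haveI := dedekind hp h2u hQ.isDomain
  exact ⟨inferInstance, step h2u hD hn hDt hp hsqp hS, D' D t, n, hQ, hn, hD.omega hDt⟩

end Pool.Agent.H28.IQ
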