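import Pool.Agent.H28.IQ.Gd

/-!
# Plane curves `f = 0` obtained from the line by automorphisms of the plane and double covers
-/

set_option autoImplicit false

namespace Pool.Agent.H28.IQ

open QuadraticAlgebra Polynomial

variable {F : Type} [Field F]

section

variable {S S' : Type} [CommRing S] [Algebra F S] [CommRing S'] [Algebra F S']

theorem biv_ext {φ ψ : F[X][X] →ₐ[F] S} (hx : φ (C X) = ψ (C X)) (hy : φ X = ψ X) : φ = ψ := by
  apply Polynomial.algHom_ext'
  · apply Polynomial.algHom_ext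
    exact hx
  · exact hy

theorem map_biv (φ : S →ₐ[F] S') (x y : S) (G : F[X][X]) :
    φ (aevalAeval x y G) = aevalAeval (φ x) (φ y) G := by
  have h : φ.comp (aevalAeval x y) = aevalAeval (φ x) (φ y) := by
    apply biv_ext
    · change φ (aevalAeval x y (C X)) = _
      rw [aevalAeval_X, aevalAeval_X]
    · change φ (aevalAeval x y X) = _
      rw [aevalAeval_Y, aevalAeval_Y]
  rw [← h]
  rfl

/-- substitution of the second variable, as a homomorphism -/
noncomputable def compHom (q : F[X][X]) : F[X][X] →ₐ[F] F[X][X] :=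
  { compRingHom q with
    commutes' := fun r => by
      change (C (C r)).comp q = C (C r)
      rw [C_comp] }

theorem comp_eq_biv (q G : F[X][X]) : G.comp q = aevalAeval (C X) q G := by
  have h : compHom q = aevalAeval (C X) q := by
    apply biv_ext
    · rw [aevalAeval_X]
      change (C X).comp q = C X
      rw [C_comp]
    · rw [aevalAeval_Y]
      change (X : F[X][X]).comp q = q
      rw [X_comp]
  rw [← h]
  rfl

theorem biv_comp (x y : S) (q G : F[X][X]) :
    aevalAeval x y (G.comp q) = aevalAeval x (aevalAeval x y q) G := by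
  rw [comp_eq_biv, map_biv, aevalAeval_X]

theorem eval₂_biv (x y : S) (G : F[X][X]) :
    G.eval₂ (aeval x : F[X] →ₐ[F] S).toRingHom y = aevalAeval x y G := by
  have h : (eval₂RingHom (aeval x : F[X] →ₐ[F] S).toRingHom y) =
      (aevalAeval x y : F[X][X] →ₐ[F] S).toRingHom := by
    apply Polynomial.ringHom_ext
    · intro b
      change (C b).eval₂ (aeval x : F[X] →ₐ[F] S).toRingHom y = aevalAeval x y (C b)
      rw [eval₂_C, aevalAeval_C]
      rfl
    · change (X : F[X][X]).eval₂ (aeval x : F[X] →ₐ[F] S).toRingHom y = aevalAeval x y X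
      rw [eval₂_X, aevalAeval_Y]
  have h1 := congrFun (congrArg DFunLike.coe h) G
  exact h1

/-- evaluation of the second variable, as a homomorphism -/
noncomputable def evalHom : F[X][X] →ₐ[F] F[X] :=
  { evalRingHom (0 : F[X]) with
    commutes' := fun r => by
      change (C (C r)).eval 0 = C r
      rw [eval_C] }

theorem biv_zero (x : S) (G : F[X][X]) : aevalAeval x 0 G = aeval x (G.eval 0) := by
  have h : (aevalAeval x 0 : F[X][X] →ₐ[F] S) = (aeval x).comp evalHom := by
    apply biv_ext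
    · rw [aevalAeval_X]
      change x = aeval x ((C X : F[X][X]).eval 0)
      rw [eval_C, aeval_X]
    · rw [aevalAeval_Y]
      change 0 = aeval x ((X : F[X][X]).eval 0)
      rw [eval_X, map_zero]
  rw [h]
  rfl

/-- maps out of the coordinate ring -/
noncomputable def lf (f : F[X][X]) (x y : S) (h : aevalAeval x y f = 0) : AdjoinRoot f →ₐ[F] S :=
  { AdjoinRoot.lift (aeval x : F[X] →ₐ[F] S).toRingHom y ((eval₂_biv x y f).trans h) with
    commutes' := fun r => by
      change AdjoinRoot.lift (aeval x : F[X] →ₐ[F] S).toRingHom y ((eval₂_biv x y f).trans h)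
        (AdjoinRoot.of f (C r)) = _
      rw [AdjoinRoot.lift_of]
      simp }

theorem lf_mk (f : F[X][X]) (x y : S) (h : aevalAeval x y f = 0) (G : F[X][X]) :
    lf f x y h (AdjoinRoot.mk f G) = aevalAeval x y G := by
  rw [← eval₂_biv]
  exact AdjoinRoot.lift_mk ((eval₂_biv x y f).trans h) G

/-- the coordinates -/
noncomputable def px (f : F[X][X]) : AdjoinRoot f := AdjoinRoot.mk f (C X)

/-- the coordinates -/
noncomputable def py (f : F[X][X]) : AdjoinRoot f := AdjoinRoot.mk f X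

theorem lf_px (f : F[X][X]) (x y : S) (h : aevalAeval x y f = 0) : lf f x y h (px f) = x := by
  rw [px, lf_mk, aevalAeval_X]

theorem lf_py (f : F[X][X]) (x y : S) (h : aevalAeval x y f = 0) : lf f x y h (py f) = y := by
  rw [py, lf_mk, aevalAeval_Y]

/-- the projection as a homomorphism -/
noncomputable def mkHom (f : F[X][X]) : F[X][X] →ₐ[F] AdjoinRoot f :=
  { AdjoinRoot.mk f with
    commutes' := fun _ => rfl }

theorem P_ext {f : F[X][X]} {φ ψ : AdjoinRoot f →ₐ[F] S} (hx : φ (px f) = ψ (px f))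
    (hy : φ (py f) = ψ (py f)) : φ = ψ := by
  have h : φ.comp (mkHom f) = ψ.comp (mkHom f) := by
    apply biv_ext
    · exact hx
    · exact hy
  apply AlgHom.ext
  intro z
  obtain ⟨G, rfl⟩ := AdjoinRoot.mk_surjective z
  exact congrFun (congrArg DFunLike.coe h) G

theorem mk_eq (f G : F[X][X]) : AdjoinRoot.mk f G = aevalAeval (px f) (py f) G := by
  have h : mkHom f = aevalAeval (px f) (py f) := by
    apply biv_ext
    · rw [aevalAeval_X]
      rfl
    · rw [aevalAeval_Y]
      rfl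
  rw [← h]
  rfl

theorem relation (f : F[X][X]) : aevalAeval (px f) (py f) f = 0 := by
  rw [← mk_eq, AdjoinRoot.mk_self]

end

theorem gd_base : Gd F (AdjoinRoot (X : F[X][X])) := by
  let φ : AdjoinRoot (X : F[X][X]) →ₐ[F] F[X] := lf X X 0 (aevalAeval_Y _ _)
  let ψ : F[X] →ₐ[F] AdjoinRoot (X : F[X][X]) := aeval (px X)
  have e : F[X] ≃ₐ[F] AdjoinRoot (X : F[X][X]) := AlgEquiv.ofAlgHom ψ φ (by
    apply P_ext
    · change ψ (φ (px X)) = px X
      have h1 : φ (px X) = X := lf_px _ _ _ _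
      rw [h1]
      exact aeval_X _
    · change ψ (φ (py X)) = py X
      have h1 : φ (py X) = 0 := lf_py _ _ _ _
      rw [h1, map_zero]
      exact (AdjoinRoot.mk_self).symm) (by
    apply Polynomial.algHom_ext
    change φ (ψ X) = X
    have h1 : ψ X = px X := aeval_X _
    rw [h1]
    exact lf_px _ _ _ _)
  exact gd_poly.of_equiv e

theorem biv_sigma {S : Type} [CommRing S] [Algebra F S] (φ : F[X][X] →ₐ[F] S) (G : F[X][X]) :
    aevalAeval (φ (C X)) (φ X) G = φ G := by
  have h : aevalAeval (φ (C X)) (φ X) = φ := by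
    apply biv_ext
    · rw [aevalAeval_X]
    · rw [aevalAeval_Y]
  rw [h]

/-- a homomorphism of the plane induces a homomorphism of the curves -/
noncomputable def mapP (f f' : F[X][X]) (σ : F[X][X] →ₐ[F] F[X][X]) (h : σ f = f') :
    AdjoinRoot f →ₐ[F] AdjoinRoot f' :=
  lf f (AdjoinRoot.mk f' (σ (C X))) (AdjoinRoot.mk f' (σ X)) (by
    have h1 := biv_sigma ((mkHom f').comp σ) f
    change aevalAeval (AdjoinRoot.mk f' (σ (C X))) (AdjoinRoot.mk f' (σ X)) f =
      AdjoinRoot.mk f' (σ f) at h1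
    rw [h1, h, AdjoinRoot.mk_self])

theorem mapP_mk (f f' : F[X][X]) (σ : F[X][X] →ₐ[F] F[X][X]) (h : σ f = f') (G : F[X][X]) :
    mapP f f' σ h (AdjoinRoot.mk f G) = AdjoinRoot.mk f' (σ G) := by
  have h1 := biv_sigma ((mkHom f').comp σ) G
  unfold mapP
  rw [lf_mk]
  exact h1

theorem gd_aut {f : F[X][X]} (h : Gd F (AdjoinRoot f)) (σ : F[X][X] ≃ₐ[F] F[X][X]) :
    Gd F (AdjoinRoot (σ f)) := by
  have h1 : (σ : F[X][X] →ₐ[F] F[X][X]) f = σ f := rfl
  have h2 : (σ.symm : F[X][X] →ₐ[F] F[X][X]) (σ f) = f := σ.symm_apply_apply f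
  refine h.of_equiv (AlgEquiv.ofAlgHom (mapP f (σ f) σ h1) (mapP (σ f) f σ.symm h2) ?_ ?_)
  · apply AlgHom.ext
    intro z
    obtain ⟨G, rfl⟩ := AdjoinRoot.mk_surjective z
    change mapP f (σ f) σ h1 (mapP (σ f) f σ.symm h2 (AdjoinRoot.mk _ G)) = AdjoinRoot.mk _ G
    rw [mapP_mk, mapP_mk]
    exact congrArg _ (σ.apply_symm_apply G)
  · apply AlgHom.ext
    intro z
    obtain ⟨G, rfl⟩ := AdjoinRoot.mk_surjective z
    change mapP (σ f) f σ.symm h2 (mapP f (σ f) σ h1 (AdjoinRoot.mk _ G)) = AdjoinRoot.mk _ G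
    rw [mapP_mk, mapP_mk]
    exact congrArg _ (σ.symm_apply_apply G)

/-- the inclusion -/
noncomputable def psiP (f : F[X][X]) : AdjoinRoot f →ₐ[F] AdjoinRoot (f.comp (X ^ 2)) :=
  lf f (px (f.comp (X ^ 2))) (py (f.comp (X ^ 2)) ^ 2) (by
    have h := relation (f.comp (X ^ 2))
    rw [biv_comp, map_pow, aevalAeval_Y] at h
    exact h)

theorem psiP_px (f : F[X][X]) : psiP f (px f) = px (f.comp (X ^ 2)) := lf_px _ _ _ _

theorem psiP_py (f : F[X][X]) : psiP f (py f) = py (f.comp (X ^ 2)) ^ 2 := lf_py _ _ _ _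

/-- `re + im ω ↦ re + im y` -/
noncomputable def fwdP (f : F[X][X]) :
    Q (AdjoinRoot f) (py f) →ₐ[F] AdjoinRoot (f.comp (X ^ 2)) where
  toFun z := psiP f z.re + psiP f z.im * py (f.comp (X ^ 2))
  map_one' := by
    rw [re_one, im_one, map_one, map_zero, zero_mul, add_zero]
  map_mul' z w := by
    rw [re_mul, im_mul, zero_mul, zero_mul, add_zero, map_add, map_add, map_mul, map_mul, map_mul,
      map_mul, map_mul, psiP_py]
    ring
  map_zero' := by
    rw [re_zero, im_zero, map_zero, zero_mul, add_zero]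
  map_add' z w := by
    rw [re_add, im_add, map_add, map_add]
    ring
  commutes' r := by
    have h1 : algebraMap F (Q (AdjoinRoot f) (py f)) r = ⟨algebraMap F (AdjoinRoot f) r, 0⟩ := rfl
    rw [h1, (psiP f).commutes, map_zero, zero_mul, add_zero]

/-- `y ↦ ω` -/
noncomputable def bwdP (f : F[X][X]) :
    AdjoinRoot (f.comp (X ^ 2)) →ₐ[F] Q (AdjoinRoot f) (py f) :=
  lf (f.comp (X ^ 2)) (algebraMap (AdjoinRoot f) (Q (AdjoinRoot f) (py f)) (px f)) ω (by
    have h1 := map_biv (IsScalarTower.toAlgHom F (AdjoinRoot f) (Q (AdjoinRoot f) (py f)))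
      (px f) (py f) f
    rw [relation, map_zero] at h1
    rw [biv_comp, map_pow, aevalAeval_Y, omega_sq]
    exact h1.symm)

theorem bwdP_px (f : F[X][X]) : bwdP f (px (f.comp (X ^ 2))) =
    algebraMap (AdjoinRoot f) (Q (AdjoinRoot f) (py f)) (px f) := lf_px _ _ _ _

theorem bwdP_py (f : F[X][X]) : bwdP f (py (f.comp (X ^ 2))) = ω := lf_py _ _ _ _

theorem bwd_psiP (f : F[X][X]) (a : AdjoinRoot f) :
    bwdP f (psiP f a) = algebraMap (AdjoinRoot f) (Q (AdjoinRoot f) (py f)) a := by
  have h : (bwdP f).comp (psiP f) =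
      IsScalarTower.toAlgHom F (AdjoinRoot f) (Q (AdjoinRoot f) (py f)) := by
    apply P_ext
    · change bwdP f (psiP f (px f)) = algebraMap _ _ (px f)
      rw [psiP_px, bwdP_px]
    · change bwdP f (psiP f (py f)) = algebraMap _ _ (py f)
      rw [psiP_py, map_pow, bwdP_py, omega_sq]
  exact congrFun (congrArg DFunLike.coe h) a

/-- the double cover `y = y'²` -/
noncomputable def sqEquivP (f : F[X][X]) :
    Q (AdjoinRoot f) (py f) ≃ₐ[F] AdjoinRoot (f.comp (X ^ 2)) :=
  AlgEquiv.ofAlgHom (fwdP f) (bwdP f) (by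
    apply P_ext
    · change fwdP f (bwdP f (px (f.comp (X ^ 2)))) = px (f.comp (X ^ 2))
      rw [bwdP_px]
      change psiP f (px f) + psiP f 0 * py (f.comp (X ^ 2)) = _
      rw [map_zero, zero_mul, add_zero, psiP_px]
    · change fwdP f (bwdP f (py (f.comp (X ^ 2)))) = py (f.comp (X ^ 2))
      rw [bwdP_py]
      change psiP f 0 + psiP f 1 * py (f.comp (X ^ 2)) = _
      rw [map_zero, map_one, one_mul, zero_add]) (by
    apply AlgHom.ext
    intro z
    change bwdP f (psiP f z.re + psiP f z.im * py (f.comp (X ^ 2))) = z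
    rw [map_add, map_mul, bwd_psiP, bwd_psiP, bwdP_py, ← decomp])

/-- evaluation at `y = 0` -/
noncomputable def evP (f : F[X][X]) : AdjoinRoot f →ₐ[F] AdjoinRoot (f.eval 0) :=
  lf f (AdjoinRoot.root (f.eval 0)) 0 (by
    rw [biv_zero, AdjoinRoot.aeval_eq, AdjoinRoot.mk_self])

theorem evP_mk (f G : F[X][X]) :
    evP f (AdjoinRoot.mk f G) = AdjoinRoot.mk (f.eval 0) (G.eval 0) := by
  unfold evP
  rw [lf_mk, biv_zero, AdjoinRoot.aeval_eq]

theorem evP_surjective (f : F[X][X]) : Function.Surjective (evP f) := by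
  intro a
  obtain ⟨b, rfl⟩ := AdjoinRoot.mk_surjective a
  refine ⟨AdjoinRoot.mk f (C b), ?_⟩
  rw [evP_mk, eval_C]

theorem ker_evP (f : F[X][X]) (z : AdjoinRoot f) : evP f z = 0 ↔ z ∈ Ideal.span {py f} := by
  rw [Ideal.mem_span_singleton]
  constructor
  · intro h
    obtain ⟨G, rfl⟩ := AdjoinRoot.mk_surjective z
    rw [evP_mk, AdjoinRoot.mk_eq_zero] at h
    obtain ⟨R, hR⟩ := h
    have h1 : (X : F[X][X]) ∣ G - f * C R := by
      rw [X_dvd_iff, coeff_zero_eq_eval_zero, eval_sub, eval_mul, eval_C, hR, sub_self]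
    obtain ⟨H, hH⟩ := h1
    have h2 : G = f * C R + X * H := by rw [← hH]; ring
    refine ⟨AdjoinRoot.mk f H, ?_⟩
    rw [h2, map_add, map_mul, map_mul, AdjoinRoot.mk_self, zero_mul, zero_add]
    rfl
  · rintro ⟨w, rfl⟩
    obtain ⟨H, rfl⟩ := AdjoinRoot.mk_surjective w
    have h1 : py f * AdjoinRoot.mk f H = AdjoinRoot.mk f (X * H) := by
      rw [map_mul]
      rfl
    rw [h1, evP_mk, eval_mul, eval_X, zero_mul, map_zero]

theorem ell_py {f : F[X][X]} (h0 : f.eval 0 ≠ 0) : ell F (py f) = (f.eval 0).natDegree := by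
  rw [← ell_poly h0]
  unfold ell
  have hker : ((Ideal.span {py f}).restrictScalars F) = LinearMap.ker (evP f).toLinearMap := by
    ext z
    rw [Submodule.restrictScalars_mem, LinearMap.mem_ker]
    exact (ker_evP f z).symm
  have e1 : (AdjoinRoot f ⧸ Ideal.span {py f}) ≃ₗ[F]
      (AdjoinRoot f ⧸ (Ideal.span {py f}).restrictScalars F) :=
    (Submodule.Quotient.restrictScalarsEquiv F _).symm
  have e2 : (AdjoinRoot f ⧸ (Ideal.span {py f}).restrictScalars F) ≃ₗ[F]
      (AdjoinRoot f ⧸ LinearMap.ker (evP f).toLinearMap) := Submodule.quotEquivOfEq _ _ hker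
  have e3 := LinearMap.quotKerEquivOfSurjective (evP f).toLinearMap (evP_surjective f)
  exact LinearEquiv.length_eq (e1.trans (e2.trans e3))

theorem py_prime {f : F[X][X]} (hd : IsDomain (AdjoinRoot f)) (hirr : Irreducible (f.eval 0)) :
    Prime (py f) := by
  have h0 : py f ≠ 0 := by
    intro h
    obtain ⟨H, hH⟩ := AdjoinRoot.mk_eq_zero.1 h
    have h2 := congrArg (Polynomial.eval 0) hH
    rw [eval_X, eval_mul] at h2
    have h3 : H.eval 0 = 0 := by
      rcases mul_eq_zero.1 h2.symm with h3 | h3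
      · exact absurd h3 hirr.ne_zero
      · exact h3
    rw [← coeff_zero_eq_eval_zero, ← X_dvd_iff] at h3
    obtain ⟨K, rfl⟩ := h3
    have h4 : (X : F[X][X]) * (f * K) = X * 1 := by
      rw [mul_one]
      conv_rhs => rw [hH]
      ring
    have h5 := mul_left_cancel₀ X_ne_zero h4
    have h6 : (AdjoinRoot.mk f) 1 = 0 := by
      rw [AdjoinRoot.mk_eq_zero]
      exact ⟨K, h5.symm⟩
    rw [map_one] at h6
    exact one_ne_zero h6
  have : Fact (Irreducible (f.eval 0)) := ⟨hirr⟩
  rw [← Ideal.span_singleton_prime h0]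
  have h1 : Ideal.span {py f} = RingHom.ker (evP f) := by
    ext z
    rw [RingHom.mem_ker]
    exact (ker_evP f z).symm
  rw [h1]
  exact RingHom.ker_isPrime _

theorem gd_square (h2 : (2 : F) ≠ 0) {f : F[X][X]} (h : Gd F (AdjoinRoot f))
    (hirr : Irreducible (f.eval 0)) (hodd : Odd (f.eval 0).natDegree) :
    Gd F (AdjoinRoot (f.comp (X ^ 2))) := by
  have := h.ded
  exact (h.quad h2 (py_prime inferInstance hirr) hodd (ell_py hirr.ne_zero)).of_equiv (sqEquivP f)

/-- the class of plane curves -/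
inductive Cov {F : Type} [Field F] : F[X][X] → Prop
  | line : Cov X
  | aut (f : F[X][X]) (σ : F[X][X] ≃ₐ[F] F[X][X]) : Cov f → Cov (σ f)
  | double (f : F[X][X]) : Cov f → Irreducible (f.eval 0) → Odd (f.eval 0).natDegree →
      Cov (f.comp (X ^ 2))

theorem gd (h2 : (2 : F) ≠ 0) {f : F[X][X]} (h : Cov f) : Gd F (AdjoinRoot f) := by
  induction h with
  | line => exact gd_base
  | aut f σ _ ih => exact gd_aut ih σ
  | double f _ h3 h4 ih => exact gd_square h2 ih h3 h4

end Pool.Agent.H28.IQ
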