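import Pool.Agent.H28.IQ.Tower

/-!
# The coordinate ring over `F[t]`, its class group and its units
-/

set_option autoImplicit false

namespace Pool.Agent.H28.IQ

open Polynomial

variable {F : Type} [Field F]

/-- exchange of the two coordinates -/
noncomputable def swap (g T : F[X]) : A g T ≃ₐ[F] A T g :=
  AlgEquiv.ofAlgHom (lft g T (ct T g) (cx T g) (rel T g).symm)
    (lft T g (ct g T) (cx g T) (rel g T).symm) (by
    apply hom_ext
    · change lft g T (ct T g) (cx T g) (rel T g).symm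
        (lft T g (ct g T) (cx g T) (rel g T).symm (cx T g)) = cx T g
      rw [lft_cx, lft_ct]
    · change lft g T (ct T g) (cx T g) (rel T g).symm
        (lft T g (ct g T) (cx g T) (rel g T).symm (ct T g)) = ct T g
      rw [lft_ct, lft_cx]) (by
    apply hom_ext
    · change lft T g (ct g T) (cx g T) (rel g T).symm
        (lft g T (ct T g) (cx T g) (rel T g).symm (cx g T)) = cx g T
      rw [lft_cx, lft_ct]
    · change lft T g (ct g T) (cx g T) (rel g T).symm
        (lft g T (ct T g) (cx T g) (rel T g).symm (ct g T)) = ct g T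
      rw [lft_ct, lft_cx])

theorem good_swap {g T : F[X]} (h : Good F (A g T) (ct g T)) : Good F (A T g) (cx T g) := by
  refine h.of_equiv (swap g T) (α := 1) (β := 0) one_ne_zero ?_
  have h1 : swap g T (ct g T) = cx T g := lft_ct g T (ct T g) (cx T g) (rel T g).symm
  rw [map_one, one_mul, map_zero, add_zero, h1]

theorem class_of_good {R : Type} [CommRing R] [IsDedekindDomain R] (h : SqP R)
    (c : ClassGroup R) (hc : c ^ 2 = 1) : c = 1 := by
  obtain ⟨I, rfl⟩ := ClassGroup.mk0_surjective c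
  rw [← map_pow, ClassGroup.mk0_eq_one_iff] at hc
  rw [ClassGroup.mk0_eq_one_iff]
  exact h _ hc

/-- all hypotheses on the ring `O = F[t][x] / (g(x) - T(t))` -/
theorem coordinateRing (h2 : (2 : F) ≠ 0) {g : F[X]} (hg : Odd g.natDegree) {T : F[X]}
    (hT : IterQuad T) (hirr : ∀ b : F, ¬ (T - C b).Separable → Irreducible (g - C b)) :
    ∃ _ : IsDedekindDomain (AdjoinRoot (g.map C - C T)),
      (∀ c : ClassGroup (AdjoinRoot (g.map C - C T)), c ^ 2 = 1 → c = 1) ∧
      (∀ u : (AdjoinRoot (g.map C - C T))ˣ,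
        ∃ c : F, (u : AdjoinRoot (g.map C - C T)) = algebraMap F _ c) := by
  have h := good_swap (good h2 hg hT hirr)
  obtain ⟨hded, hsq, D, n, hD, -, -⟩ := h
  refine ⟨hded, fun c hc => class_of_good hsq c hc, fun u => ?_⟩
  obtain ⟨c, -, hc⟩ := isUnit_const hD u.isUnit
  exact ⟨c, hc⟩

theorem monic_f {g : F[X]} (hg : g.Monic) (hodd : Odd g.natDegree) (T : F[X]) :
    (g.map C - C T : F[X][X]).Monic := by
  have h1 : (g.map (C : F →+* F[X])).Monic := hg.map C
  refine h1.sub_of_left ?_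
  refine lt_of_le_of_lt degree_C_le ?_
  rw [← natDegree_pos_iff_degree_pos, hg.natDegree_map]
  exact hodd.pos

theorem natDegree_f {g : F[X]} (hg : g.Monic) (T : F[X]) :
    (g.map C - C T : F[X][X]).natDegree = g.natDegree := by
  rw [natDegree_sub_C, hg.natDegree_map]

/-- the reduction of `O` modulo `P` -/
noncomputable def red (f : F[X][X]) (P : F[X]) :
    AdjoinRoot f →+* AdjoinRoot (f.map (AdjoinRoot.mk P)) :=
  AdjoinRoot.map (AdjoinRoot.mk P) f (f.map (AdjoinRoot.mk P)) dvd_rfl

theorem red_mk (f : F[X][X]) (P : F[X]) (G : F[X][X]) :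
    red f P (AdjoinRoot.mk f G) = AdjoinRoot.mk _ (G.map (AdjoinRoot.mk P)) := by
  induction G using Polynomial.induction_on' with
  | add p q hp hq => rw [map_add, map_add, hp, hq, Polynomial.map_add, map_add]
  | monomial n a =>
    rw [← C_mul_X_pow_eq_monomial, Polynomial.map_mul, Polynomial.map_pow, Polynomial.map_C,
      Polynomial.map_X, map_mul, map_pow, map_mul, map_pow, map_mul, map_pow, AdjoinRoot.mk_X,
      AdjoinRoot.mk_X, AdjoinRoot.mk_C, AdjoinRoot.mk_C]
    unfold red
    rw [AdjoinRoot.map_of, AdjoinRoot.map_root]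

theorem red_eq_zero {f : F[X][X]} {P : F[X]} {z : AdjoinRoot f} (h : red f P z = 0) :
    algebraMap F[X] (AdjoinRoot f) P ∣ z := by
  obtain ⟨G, rfl⟩ := AdjoinRoot.mk_surjective z
  rw [red_mk, AdjoinRoot.mk_eq_zero] at h
  obtain ⟨H, hH⟩ := h
  obtain ⟨H, rfl⟩ := Polynomial.map_surjective (AdjoinRoot.mk P) AdjoinRoot.mk_surjective H
  have h1 : C P ∣ G - f * H := by
    rw [C_dvd_iff_dvd_coeff]
    intro i
    rw [← AdjoinRoot.mk_eq_zero, ← coeff_map, Polynomial.map_sub, hH, Polynomial.map_mul, sub_self,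
      coeff_zero]
  obtain ⟨R, hR⟩ := h1
  have h2 : G = f * H + C P * R := by rw [← hR]; ring
  refine ⟨AdjoinRoot.mk f R, ?_⟩
  rw [h2, map_add, map_mul, map_mul, AdjoinRoot.mk_self, zero_mul, zero_add]
  rfl

theorem nonsplit {f : F[X][X]} {P : F[X]} (hP : Irreducible P)
    (hirr : Irreducible (f.map (AdjoinRoot.mk P))) (w : Ideal (AdjoinRoot f)) (hw : w.IsPrime)
    (hwP : algebraMap F[X] (AdjoinRoot f) P ∈ w) :
    w = Ideal.span {algebraMap F[X] (AdjoinRoot f) P} := by
  have : Fact (Irreducible P) := ⟨hP⟩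
  have : Fact (Irreducible (f.map (AdjoinRoot.mk P))) := ⟨hirr⟩
  apply le_antisymm
  · intro z hz
    rw [Ideal.mem_span_singleton]
    apply red_eq_zero
    by_contra h0
    have hsurj : Function.Surjective (red f P) := by
      intro y
      obtain ⟨G, rfl⟩ := AdjoinRoot.mk_surjective y
      obtain ⟨G, rfl⟩ := Polynomial.map_surjective (AdjoinRoot.mk P) AdjoinRoot.mk_surjective G
      exact ⟨AdjoinRoot.mk f G, red_mk f P G⟩
    obtain ⟨z', hz'⟩ := hsurj (red f P z)⁻¹
    have h1 : red f P (z * z' - 1) = 0 := by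
      rw [map_sub, map_mul, hz', mul_inv_cancel₀ h0, map_one, sub_self]
    obtain ⟨y, hy⟩ := red_eq_zero h1
    apply hw.ne_top
    rw [Ideal.eq_top_iff_one]
    have h2 : (1 : AdjoinRoot f) = z * z' - algebraMap F[X] (AdjoinRoot f) P * y := by
      rw [← hy]; ring
    rw [h2]
    exact w.sub_mem (w.mul_mem_right _ hz) (w.mul_mem_right _ hwP)
  · rw [Ideal.span_singleton_le_iff_mem]
    exact hwP

end Pool.Agent.H28.IQ
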