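import Pool.Agent.H28.IQ.Plane
import Pool.Agent.H28.IQ.Swap

/-!
# The coordinate ring of a curve in the class: class group and units
-/

set_option autoImplicit false

namespace Pool.Agent.H28.IQ

open Polynomial

variable {F : Type} [Field F]

/-- all hypotheses on the ring `O = F[t][x] / (f)` -/
theorem coordinateRing' (h2 : (2 : F) ≠ 0) {f : F[X][X]} (h : Cov f) :
    ∃ _ : IsDedekindDomain (AdjoinRoot f),
      (∀ c : ClassGroup (AdjoinRoot f), c ^ 2 = 1 → c = 1) ∧
      (∀ u : (AdjoinRoot f)ˣ, ∃ c : F, (u : AdjoinRoot f) = algebraMap F _ c) := by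
  obtain ⟨hded, hsq, D, hD, -⟩ := gd h2 h
  refine ⟨hded, fun c hc => class_of_good hsq c hc, fun u => ?_⟩
  obtain ⟨c, -, hc⟩ := isUnit_const hD u.isUnit
  exact ⟨c, hc⟩

/-- substitutions of the second variable which are automorphisms -/
theorem cov_subst {f : F[X][X]} (h : Cov f) (q q' : F[X][X]) (h1 : q.comp q' = X)
    (h2 : q'.comp q = X) : Cov (f.comp q) := by
  let σ : F[X][X] ≃ₐ[F] F[X][X] := AlgEquiv.ofAlgHom (compHom q) (compHom q') (by
    apply biv_ext
    · change ((C X).comp q').comp q = C X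
      rw [C_comp, C_comp]
    · change ((X : F[X][X]).comp q').comp q = X
      rw [X_comp, h2]) (by
    apply biv_ext
    · change ((C X).comp q).comp q' = C X
      rw [C_comp, C_comp]
    · change ((X : F[X][X]).comp q).comp q' = X
      rw [X_comp, h1])
  exact Cov.aut f σ h

theorem cov_affine {f : F[X][X]} (h : Cov f) {a : F} (ha : a ≠ 0) (b : F[X]) :
    Cov (f.comp (C (C a) * X + C b)) := by
  have h3 : (C (C a) * C (C a⁻¹) : F[X][X]) = 1 := by
    rw [← map_mul, ← map_mul, mul_inv_cancel₀ ha, map_one, map_one]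
  refine cov_subst h _ (C (C a⁻¹) * (X - C b)) ?_ ?_
  · simp only [add_comp, mul_comp, C_comp, X_comp]
    rw [← mul_assoc, h3]
    ring
  · simp only [sub_comp, mul_comp, C_comp, X_comp]
    rw [add_sub_cancel_right, ← mul_assoc, mul_comm (C (C a⁻¹) : F[X][X]), h3, one_mul]

/-- the line `t = g(x)` -/
theorem cov_base (g : F[X]) : Cov (C g - X : F[X][X]) := by
  have h := cov_affine Cov.line (neg_ne_zero.2 (one_ne_zero : (1 : F) ≠ 0)) g
  have h1 : (X : F[X][X]).comp (C (C (-1)) * X + C g) = C g - X := by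
    rw [X_comp, map_neg, map_neg, map_one, map_one]
    ring
  rwa [h1] at h

/-- quadratic substitutions `t = e (t' + m(x))² + c(x)` -/
theorem cov_quad {f : F[X][X]} (h : Cov f) {e : F} (he : e ≠ 0) (m c : F[X])
    (hirr : Irreducible (f.eval c)) (hodd : Odd (f.eval c).natDegree) :
    Cov (f.comp (C (C e) * (X + C m) ^ 2 + C c)) := by
  have h1 := cov_affine h he c
  have h2 : (f.comp (C (C e) * X + C c)).eval 0 = f.eval c := by
    rw [eval_comp]
    simp
  have h3 := Cov.double _ h1 (by rwa [h2]) (by rwa [h2])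
  have h4 := cov_affine h3 (one_ne_zero : (1 : F) ≠ 0) m
  have h5 : ((f.comp (C (C e) * X + C c)).comp (X ^ 2)).comp (C (C 1) * X + C m) =
      f.comp (C (C e) * (X + C m) ^ 2 + C c) := by
    rw [comp_assoc, comp_assoc]
    congr 1
    simp only [add_comp, mul_comp, C_comp, X_comp, pow_comp, map_one, one_mul]
  rwa [h5] at h4

/-- compositions of quadratic polynomials: `g(x) - T(t)` is in the class -/
theorem cov_iter (h2 : (2 : F) ≠ 0) {g : F[X]} (hg : Odd g.natDegree) {T : F[X]} (hT : IterQuad T)
    (hirr : ∀ b : F, ¬ (T - C b).Separable → Irreducible (g - C b)) :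
    Cov (C g - T.map C : F[X][X]) := by
  induction hT with
  | X =>
    rw [Polynomial.map_X]
    exact cov_base g
  | comp T q hT hq ih =>
    have h1 : Cov (C g - T.map C : F[X][X]) := by
      apply ih
      intro b hb
      apply hirr
      intro h3
      apply hb
      apply separable_of_comp (q := q) (by rw [hq]; exact two_pos)
      rwa [sub_comp, C_comp]
    obtain ⟨a, m, c, ha, hqe⟩ := quad_form h2 hq
    have h3 : (C g - T.map C : F[X][X]).eval (C c) = g - C (T.eval c) := by
      rw [eval_sub, eval_C, eval_map, eval₂_at_apply]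
    have h4 := cov_quad h1 ha (C m) (C c) (by rw [h3]; exact hirr _ (not_separable hqe))
      (by rw [h3, natDegree_sub_C]; exact hg)
    have h5 : (C g - T.map C : F[X][X]).comp (C (C a) * (X + C (C m)) ^ 2 + C (C c)) =
        C g - (T.comp q).map C := by
      rw [sub_comp, C_comp, Polynomial.map_comp]
      congr 2
      rw [hqe]
      simp only [add_comp, mul_comp, C_comp, X_comp, pow_comp, map_one, one_mul,
        Polynomial.map_add, Polynomial.map_mul, Polynomial.map_pow, Polynomial.map_C,
        Polynomial.map_X]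
    rwa [h5] at h4

theorem cov_iter' (h2 : (2 : F) ≠ 0) {g : F[X]} (hg : Odd g.natDegree) {T : F[X]} (hT : IterQuad T)
    (hirr : ∀ b : F, ¬ (T - C b).Separable → Irreducible (g - C b)) :
    Cov (g.map C - C T : F[X][X]) := by
  have h := Cov.aut _ Bivariate.swap (cov_iter h2 hg hT hirr)
  rwa [map_sub, Bivariate.swap_C, Bivariate.swap_map_C] at h

end Pool.Agent.H28.IQ
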