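import Pool.Agent.H28.IQ.Alg

/-!
# Adjoining the square root of `t` to `F[x, t] / (T(t) - g(x))`
-/

set_option autoImplicit false

namespace Pool.Agent.H28.IQ

open QuadraticAlgebra Polynomial

variable {F : Type} [Field F]

theorem psi_aux (g T : F[X]) :
    aeval (ct g (T.comp (X ^ 2)) ^ 2) T = aeval (cx g (T.comp (X ^ 2))) g := by
  rw [← rel, aeval_comp, map_pow, aeval_X]

/-- the inclusion -/
noncomputable def psi (g T : F[X]) : A g T →ₐ[F] A g (T.comp (X ^ 2)) :=
  lft g T (cx g (T.comp (X ^ 2))) (ct g (T.comp (X ^ 2)) ^ 2) (psi_aux g T)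

theorem psi_cx (g T : F[X]) : psi g T (cx g T) = cx g (T.comp (X ^ 2)) := lft_cx _ _ _ _ _

theorem psi_ct (g T : F[X]) : psi g T (ct g T) = ct g (T.comp (X ^ 2)) ^ 2 := lft_ct _ _ _ _ _

/-- `re + im ω ↦ re + im t` -/
noncomputable def fwd (g T : F[X]) : Q (A g T) (ct g T) →ₐ[F] A g (T.comp (X ^ 2)) where
  toFun z := psi g T z.re + psi g T z.im * ct g (T.comp (X ^ 2))
  map_one' := by
    rw [re_one, im_one, map_one, map_zero, zero_mul, add_zero]
  map_mul' z w := by
    rw [re_mul, im_mul, zero_mul, zero_mul, add_zero, map_add, map_add, map_mul, map_mul, map_mul,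
      map_mul, map_mul, psi_ct]
    ring
  map_zero' := by
    rw [re_zero, im_zero, map_zero, zero_mul, add_zero]
  map_add' z w := by
    rw [re_add, im_add, map_add, map_add]
    ring
  commutes' r := by
    have h1 : algebraMap F (Q (A g T) (ct g T)) r = ⟨algebraMap F (A g T) r, 0⟩ := rfl
    rw [h1, (psi g T).commutes, map_zero, zero_mul, add_zero]

theorem bwd_aux (g T : F[X]) :
    aeval (ω : Q (A g T) (ct g T)) (T.comp (X ^ 2)) =
      aeval (algebraMap (A g T) (Q (A g T) (ct g T)) (cx g T)) g := by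
  rw [aeval_comp, map_pow, aeval_X, omega_sq, aeval_algebraMap_apply, aeval_algebraMap_apply, rel]

/-- `t ↦ ω` -/
noncomputable def bwd (g T : F[X]) : A g (T.comp (X ^ 2)) →ₐ[F] Q (A g T) (ct g T) :=
  lft g (T.comp (X ^ 2)) (algebraMap (A g T) (Q (A g T) (ct g T)) (cx g T)) ω (bwd_aux g T)

theorem bwd_cx (g T : F[X]) : bwd g T (cx g (T.comp (X ^ 2))) =
    algebraMap (A g T) (Q (A g T) (ct g T)) (cx g T) := lft_cx _ _ _ _ _

theorem bwd_ct (g T : F[X]) : bwd g T (ct g (T.comp (X ^ 2))) = ω := lft_ct _ _ _ _ _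

theorem bwd_psi (g T : F[X]) (a : A g T) :
    bwd g T (psi g T a) = algebraMap (A g T) (Q (A g T) (ct g T)) a := by
  have h : (bwd g T).comp (psi g T) = IsScalarTower.toAlgHom F (A g T) (Q (A g T) (ct g T)) := by
    apply hom_ext
    · change bwd g T (psi g T (cx g T)) = algebraMap _ _ (cx g T)
      rw [psi_cx, bwd_cx]
    · change bwd g T (psi g T (ct g T)) = algebraMap _ _ (ct g T)
      rw [psi_ct, map_pow, bwd_ct, omega_sq]
  exact congrFun (congrArg DFunLike.coe h) a

/-- `F[x, t] / (T(t²) - g(x))` is the quadratic extension -/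
noncomputable def sqEquiv (g T : F[X]) : Q (A g T) (ct g T) ≃ₐ[F] A g (T.comp (X ^ 2)) :=
  AlgEquiv.ofAlgHom (fwd g T) (bwd g T) (by
    apply hom_ext
    · change fwd g T (bwd g T (cx g (T.comp (X ^ 2)))) = cx g (T.comp (X ^ 2))
      rw [bwd_cx]
      change psi g T (cx g T) + psi g T 0 * ct g (T.comp (X ^ 2)) = _
      rw [map_zero, zero_mul, add_zero, psi_cx]
    · change fwd g T (bwd g T (ct g (T.comp (X ^ 2)))) = ct g (T.comp (X ^ 2))
      rw [bwd_ct]
      change psi g T 0 + psi g T 1 * ct g (T.comp (X ^ 2)) = _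
      rw [map_zero, map_one, one_mul, zero_add]) (by
    apply AlgHom.ext
    intro z
    change bwd g T (psi g T z.re + psi g T z.im * ct g (T.comp (X ^ 2))) = z
    rw [map_add, map_mul, bwd_psi, bwd_psi, bwd_ct, ← decomp])

theorem good_square (h2 : (2 : F) ≠ 0) {g T : F[X]} (h : Good F (A g T) (ct g T))
    (hp : Prime (ct g T))
    (hS : ∀ c : F, ∀ a m : A g T, ¬ ct g T ∣ m →
      ct g T ∣ a ^ 2 - algebraMap F (A g T) c * m ^ 2 → IsSquare c) :
    Good F (A g (T.comp (X ^ 2))) (ct g (T.comp (X ^ 2))) := by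
  refine (Good.quad h2 h hp hS).of_equiv (sqEquiv g T) (α := 1) (β := 0) one_ne_zero ?_
  have h1 : sqEquiv g T (ω : Q (A g T) (ct g T)) = ct g (T.comp (X ^ 2)) := by
    change psi g T 0 + psi g T 1 * ct g (T.comp (X ^ 2)) = _
    rw [map_zero, map_one, one_mul, zero_add]
  rw [map_one, one_mul, map_zero, add_zero, h1]

end Pool.Agent.H28.IQ
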