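import Pool.Agent.H28.IQ.Core

/-!
# The class group of the ramified quadratic extension has no element of order two
-/

set_option autoImplicit false

namespace Pool.Agent.H28.IQ

open QuadraticAlgebra

variable {F R : Type} [Field F] [CommRing R] [Algebra F R] {D : R → WithBot ℕ} {p : R}

theorem isUnit_const (hD : Deg F R D) {u : R} (hu : IsUnit u) : ∃ c : F, c ≠ 0 ∧ u = algebraMap F R c := by
  obtain ⟨v, hv⟩ := hu.exists_right_inv
  have h1 : D u + D v = 0 := by rw [← hD.mul, hv, hD.one]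
  apply (hD.zero u).1
  cases hu' : D u with
  | bot => rw [hu', WithBot.bot_add] at h1; exact absurd h1 (by simp)
  | coe a =>
    cases hv' : D v with
    | bot => rw [hv', WithBot.add_bot] at h1; exact absurd h1 (by simp)
    | coe b =>
      rw [hu', hv'] at h1
      have h3 : a + b = 0 :=
        WithBot.coe_inj.1 (show ((a + b : ℕ) : WithBot ℕ) = ((0 : ℕ) : WithBot ℕ) from h1)
      have h4 : a = 0 := by omega
      rw [h4]
      rfl

/-- the case where the generator is not divisible by `s` -/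
theorem step_prime (h2u : IsUnit (2 : R)) (hD : Deg F R D) {n : ℕ} (hn : Odd n) (hpn : D p = n)
    [IsDedekindDomain R] [IsDedekindDomain (Q R p)] (hp : Prime p) (hP : SqP R)
    (hS : ∀ c : F, ∀ a m : R, ¬ p ∣ m → p ∣ a ^ 2 - algebraMap F R c * m ^ 2 → IsSquare c)
    {I : Ideal (Q R p)} {a : Q R p} (ha : ¬ (ω : Q R p) ∣ a) (hI : I ^ 2 = Ideal.span {a}) :
    I.IsPrincipal := by
  have ha0 : a ≠ 0 := fun h => ha (h ▸ dvd_zero _)
  -- the norm is a unit times a square
  have hN : (I * I.map (starRingEnd (Q R p))) ^ 2 =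
      Ideal.span {algebraMap R (Q R p) (norm a)} := by
    rw [mul_pow, ← Ideal.map_pow, hI, Ideal.map_span, Set.image_singleton,
      Ideal.span_singleton_mul_span_singleton, algebraMap_norm_eq_mul_star]
    rfl
  have hna : norm a ≠ 0 := by
    intro h
    have h1 : a * star a = 0 := by
      rw [← algebraMap_norm_eq_mul_star, h, map_zero]
    rcases mul_eq_zero.1 h1 with h2 | h2
    · exact ha0 h2
    · exact ha0 (star_eq_zero.1 h2)
  obtain ⟨N, hN'⟩ := WithBot.ne_bot_iff_exists.1 (fun h => hna ((hD.bot _).1 h))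
  obtain ⟨u, m, j, hu, hum⟩ := core h2u hD hn hpn hp hP N (norm a) hN'.symm _ hN
  have hpa : ¬ p ∣ a.re := fun h => ha ((omega_dvd_iff a).2 h)
  have hpn' : ¬ p ∣ norm a := by
    rw [norm_eq]
    intro h
    have h1 : p ∣ a.re ^ 2 := (dvd_sub_left (dvd_mul_right _ _)).1 h
    exact hpa (hp.dvd_of_dvd_pow h1)
  have hj : j = 0 := by
    by_contra h
    apply hpn'
    rw [hum]
    obtain ⟨i, rfl⟩ := Nat.exists_eq_succ_of_ne_zero h
    exact ⟨u * p ^ i * m ^ 2, by rw [pow_succ]; ring⟩
  rw [hj, pow_zero, mul_one] at hum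
  obtain ⟨c, hc0, rfl⟩ := isUnit_const hD hu
  have hpm : ¬ p ∣ m := by
    intro h
    apply hpn'
    rw [hum]
    exact (dvd_pow h two_ne_zero).mul_left _
  obtain ⟨c0, hc⟩ := hS c a.re m hpm (by
    have h1 : a.re ^ 2 - algebraMap F R c * m ^ 2 = p * a.im ^ 2 := by
      rw [← hum, norm_eq]; ring
    rw [h1]
    exact dvd_mul_right _ _)
  -- `norm a = w ^ 2`
  set w : R := algebraMap F R c0 * m with hw
  have hnw : norm a = w ^ 2 := by
    rw [hum, hw, hc, map_mul]; ring
  set W : Q R p := algebraMap R (Q R p) w with hW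
  have h1 : a * star a = W ^ 2 := by
    rw [← algebraMap_norm_eq_mul_star, hnw, hW, map_pow]
  have h2 : a + star a = algebraMap R (Q R p) (2 * a.re) := by
    ext
    · simp [two_mul]
    · simp
  set k : R := 2 * a.re + 2 * w with hk
  have h3 : (a + W) ^ 2 = a * algebraMap R (Q R p) k := by
    have h4 : algebraMap R (Q R p) k = a + star a + 2 * W := by
      rw [h2, hk, hW, map_add, map_mul _ 2 w, map_ofNat]
    rw [h4]
    calc (a + W) ^ 2 = a ^ 2 + 2 * a * W + W ^ 2 := by ring
      _ = a ^ 2 + 2 * a * W + a * star a := by rw [h1]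
      _ = _ := by ring
  by_cases hk0 : k = 0
  · -- `a ∈ R`
    have h4 : a = algebraMap R (Q R p) (-w) := by
      rw [hk0, map_zero, mul_zero] at h3
      have h5 : a + W = 0 := by
        exact pow_eq_zero_iff (two_ne_zero) |>.1 h3
      rw [map_neg, ← hW]
      exact eq_neg_of_add_eq_zero_left h5
    have hw0 : -w ≠ 0 := by
      rintro h5
      apply ha0
      rw [h4, h5, map_zero]
    obtain ⟨N1, hN1⟩ := WithBot.ne_bot_iff_exists.1 (fun h => hw0 ((hD.bot _).1 h))
    obtain ⟨u', m', j', hu', hum'⟩ := core h2u hD hn hpn hp hP N1 (-w) hN1.symm I (by rw [hI, h4])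
    obtain ⟨v, hv⟩ := hu'
    refine principal_of_sq (z := ω ^ j' * algebraMap R (Q R p) m')
      (u := algebraMap R (Q R p) (↑v⁻¹ : R)) hI ((Units.isUnit _).map _) ?_
    rw [mul_pow, ← pow_mul, mul_comm j' 2, pow_mul, omega_sq, h4, hum', ← hv, ← map_pow, ← map_pow,
      ← map_mul, ← map_mul]
    congr 1
    calc p ^ j' * m' ^ 2 = (↑v⁻¹ * ↑v : R) * (p ^ j' * m' ^ 2) := by rw [Units.inv_mul, one_mul]
      _ = _ := by ring
  · obtain ⟨J, hJ⟩ := cofactor_sq ha0 hI h3
    obtain ⟨N1, hN1⟩ := WithBot.ne_bot_iff_exists.1 (fun h => hk0 ((hD.bot _).1 h))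
    obtain ⟨u', m', j', hu', hum'⟩ := core h2u hD hn hpn hp hP N1 k hN1.symm J hJ
    have h4 : algebraMap R (Q R p) k =
        algebraMap R (Q R p) u' * (ω ^ j' * algebraMap R (Q R p) m') ^ 2 := by
      rw [mul_pow, ← pow_mul, mul_comm j' 2, pow_mul, omega_sq, hum', ← map_pow, ← map_pow,
        ← map_mul, ← map_mul]
      congr 1
      ring
    rw [h4] at h3
    obtain ⟨z, hz⟩ := dvd_of_sq_mul_unit h3
    have hy0 : (ω : Q R p) ^ j' * algebraMap R (Q R p) m' ≠ 0 := by
      intro h5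
      rw [h5, zero_pow two_ne_zero, mul_zero] at h4
      exact hk0 (algebraMap_injective (by rw [h4, map_zero]))
    refine principal_of_sq (z := z) (u := algebraMap R (Q R p) u') hI (hu'.map _) ?_
    rw [hz, mul_pow] at h3
    have h5 : ((ω : Q R p) ^ j' * algebraMap R (Q R p) m') ^ 2 * z ^ 2 =
        ((ω : Q R p) ^ j' * algebraMap R (Q R p) m') ^ 2 * (a * algebraMap R (Q R p) u') := by
      rw [h3]; ring
    exact mul_left_cancel₀ (pow_ne_zero 2 hy0) h5

theorem step (h2u : IsUnit (2 : R)) (hD : Deg F R D) {n : ℕ} (hn : Odd n) (hpn : D p = n)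
    [IsDedekindDomain R] [IsDedekindDomain (Q R p)] (hp : Prime p) (hP : SqP R)
    (hS : ∀ c : F, ∀ a m : R, ¬ p ∣ m → p ∣ a ^ 2 - algebraMap F R c * m ^ 2 → IsSquare c) :
    SqP (Q R p) := by
  have main : ∀ (N : ℕ) (a : Q R p), D' D p a = N → ∀ I : Ideal (Q R p),
      I ^ 2 = Ideal.span {a} → I.IsPrincipal := by
    intro N
    induction N using Nat.strong_induction_on with
    | _ N ih =>
    intro a haN I hI
    by_cases ha : (ω : Q R p) ∣ a
    · have h1 : I ≤ Ideal.span {(ω : Q R p)} := by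
        have hpr : (Ideal.span {(ω : Q R p)}).IsPrime :=
          (Ideal.span_singleton_prime (omega_ne_zero hp)).2 (omega_prime hp)
        have h2 : I ^ 2 ≤ Ideal.span {(ω : Q R p)} := by
          rw [hI, Ideal.span_singleton_le_span_singleton]
          exact ha
        exact hpr.le_of_pow_le h2
      obtain ⟨I1, a1, hI1, ha1, hIa⟩ := strip (omega_ne_zero hp) hI h1
      have hQ := hD.quad hn hpn
      have ha0 : a ≠ 0 := by
        rintro rfl
        rw [(hQ.bot 0).2 rfl] at haN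
        exact absurd haN (WithBot.bot_ne_natCast N)
      have ha10 : a1 ≠ 0 := fun h => ha0 (by rw [ha1, h, mul_zero])
      obtain ⟨N1, hN1⟩ := WithBot.ne_bot_iff_exists.1 (fun h => ha10 ((hQ.bot a1).1 h))
      have h4 : N1 < N := by
        rw [ha1, hQ.mul, sq, hQ.mul, hD.omega hpn, ← hN1] at haN
        have h5 : n + n + N1 = N :=
          WithBot.coe_inj.1 (show ((n + n + N1 : ℕ) : WithBot ℕ) = ((N : ℕ) : WithBot ℕ) from haN)
        obtain ⟨l, hl⟩ := hn
        omega
      obtain ⟨⟨z, hz⟩⟩ := ih N1 h4 a1 hN1.symm I1 hIa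
      change I1 = Ideal.span {z} at hz
      refine ⟨⟨ω * z, ?_⟩⟩
      change I = Ideal.span {ω * z}
      rw [hI1, hz, Ideal.span_singleton_mul_span_singleton]
    · exact step_prime h2u hD hn hpn hp hP hS ha hI
  intro I hI
  obtain ⟨⟨a, ha⟩⟩ := hI
  change I ^ 2 = Ideal.span {a} at ha
  by_cases h0 : a = 0
  · rw [h0, Ideal.span_singleton_eq_bot.2 rfl] at ha
    have h1 : I = ⊥ := by
      rw [← Ideal.zero_eq_bot] at ha ⊢
      exact pow_eq_zero_iff (two_ne_zero) |>.1 ha
    rw [h1]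
    exact bot_isPrincipal
  · have hQ := hD.quad hn hpn
    obtain ⟨N1, hN1⟩ := WithBot.ne_bot_iff_exists.1 (fun h => h0 ((hQ.bot a).1 h))
    exact main N1 a hN1.symm I ha

end Pool.Agent.H28.IQ
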