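import Pool.Agent.H28.IQ.Fib

/-!
# Compositions of quadratic polynomials
-/

set_option autoImplicit false

namespace Pool.Agent.H28.IQ

open Polynomial

variable {F : Type} [Field F]

/-- compositions of quadratic polynomials -/
inductive IterQuad {F : Type} [Field F] : F[X] → Prop
  | X : IterQuad X
  | comp (T q : F[X]) : IterQuad T → q.natDegree = 2 → IterQuad (T.comp q)

theorem separable_of_comp {T q : F[X]} (hq : 0 < q.natDegree) (h : (T.comp q).Separable) :
    T.Separable := by
  -- a common factor of `T` and `T'`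
  classical
  by_contra hT
  rw [Separable] at h hT
  have h1 : ∃ d : F[X], ¬ IsUnit d ∧ d ∣ T ∧ d ∣ derivative T := by
    by_contra h2
    push Not at h2
    apply hT
    rw [← EuclideanDomain.gcd_isUnit_iff]
    by_contra h3
    exact h2 _ h3 (EuclideanDomain.gcd_dvd_left _ _) (EuclideanDomain.gcd_dvd_right _ _)
  obtain ⟨d, hd, ⟨a, ha⟩, ⟨b, hb⟩⟩ := h1
  have h2 : d.comp q ∣ T.comp q := ⟨a.comp q, by rw [ha, mul_comp]⟩
  have h3 : d.comp q ∣ derivative (T.comp q) := by
    rw [derivative_comp, hb, mul_comp]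
    exact Dvd.intro (derivative q * b.comp q) (by ring)
  have h4 : IsUnit (d.comp q) := h.isUnit_of_dvd' h2 h3
  apply hd
  rw [isUnit_iff_degree_eq_zero] at h4 ⊢
  by_cases hd0 : d = 0
  · rw [hd0, zero_comp, degree_zero] at h4
    exact absurd h4 (by simp)
  have h5 : (d.comp q).natDegree = 0 := natDegree_eq_of_degree_eq_some h4
  rw [natDegree_comp, mul_eq_zero] at h5
  rcases h5 with h5 | h5
  · rw [degree_eq_natDegree hd0, h5]
    rfl
  · omega

/-- completing the square -/
theorem quad_form (h2 : (2 : F) ≠ 0) {q : F[X]} (hq : q.natDegree = 2) :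
    ∃ a m c : F, a ≠ 0 ∧ q = ((C a * X + C c : F[X]).comp (X ^ 2)).comp (C 1 * X + C m) := by
  have ha0 : q.coeff 2 ≠ 0 := by
    rw [← hq, coeff_natDegree, Ne, leadingCoeff_eq_zero]
    rintro rfl
    rw [natDegree_zero] at hq
    exact absurd hq (by decide)
  have h0 : q = C (q.coeff 2) * X ^ 2 + C (q.coeff 1) * X + C (q.coeff 0) := by
    conv_lhs => rw [q.as_sum_range_C_mul_X_pow, hq]
    rw [Finset.sum_range_succ, Finset.sum_range_succ, Finset.sum_range_succ, Finset.sum_range_zero]
    ring
  obtain ⟨a, b, c, ha, h1⟩ : ∃ a b c : F, a ≠ 0 ∧ q = C a * X ^ 2 + C b * X + C c :=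
    ⟨_, _, _, ha0, h0⟩
  refine ⟨a, b / (2 * a), c - a * (b / (2 * a)) ^ 2, ha, ?_⟩
  have h3 : C (2 * a * (b / (2 * a))) = C b := by
    rw [mul_div_cancel₀ b (mul_ne_zero h2 ha)]
  rw [h1]
  simp only [add_comp, mul_comp, C_comp, X_comp, pow_comp]
  simp only [map_mul, map_one, map_sub, map_pow, one_mul] at h3 ⊢
  have h4 : (C (2 : F) : F[X]) = 2 := map_ofNat C 2
  rw [h4] at h3
  linear_combination (-X : F[X]) * h3

theorem comp_quad {T q : F[X]} {a m c : F}
    (hq : q = ((C a * X + C c : F[X]).comp (X ^ 2)).comp (C 1 * X + C m)) :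
    T.comp q = ((T.comp (C a * X + C c)).comp (X ^ 2)).comp (C 1 * X + C m) := by
  rw [hq, comp_assoc, comp_assoc, comp_assoc]

theorem not_separable {T q : F[X]} {a m c : F}
    (hq : q = ((C a * X + C c : F[X]).comp (X ^ 2)).comp (C 1 * X + C m)) :
    ¬ (T.comp q - C (T.eval c)).Separable := by
  intro h
  have h1 : X - C c ∣ T - C (T.eval c) := by
    rw [dvd_iff_isRoot, IsRoot, eval_sub, eval_C, sub_self]
  obtain ⟨R, hR⟩ := h1
  have h2 : T.comp q - C (T.eval c) = (X + C m) * (X + C m) * (C a * R.comp q) := by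
    have h3 : T.comp q - C (T.eval c) = (T - C (T.eval c)).comp q := by
      rw [sub_comp, C_comp]
    have h4 : q - C c = C a * (X + C m) ^ 2 := by
      rw [hq]
      simp only [add_comp, mul_comp, C_comp, X_comp, pow_comp, map_one, one_mul]
      ring
    rw [h3, hR, mul_comp, sub_comp, X_comp, C_comp, h4]
    ring
  have h5 := h.squarefree (X + C m) (Dvd.intro _ h2.symm)
  exact not_isUnit_X_add_C m h5

theorem good (h2 : (2 : F) ≠ 0) {g : F[X]} (hg : Odd g.natDegree) {T : F[X]} (hT : IterQuad T)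
    (hirr : ∀ b : F, ¬ (T - C b).Separable → Irreducible (g - C b)) :
    Good F (A g T) (ct g T) := by
  induction hT with
  | X => exact good_X g hg
  | comp T q hT hq ih =>
    have h1 : Good F (A g T) (ct g T) := by
      apply ih
      intro b hb
      apply hirr
      intro h3
      apply hb
      apply separable_of_comp (q := q) (by rw [hq]; exact two_pos)
      rwa [sub_comp, C_comp]
    obtain ⟨a, m, c, ha, hqe⟩ := quad_form h2 hq
    have h3 := good_affine (b := c) h1 ha
    have h4 : (T.comp (C a * X + C c)).eval 0 = T.eval c := by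
      rw [eval_comp]
      simp
    have h5 := good_square' h2 hg h3 (by rw [h4]; exact hirr _ (not_separable hqe))
    have h6 := good_affine (b := m) h5 one_ne_zero
    rwa [← comp_quad hqe] at h6

end Pool.Agent.H28.IQ
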