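import Pool.Agent.H94.TC.ParTw

/-!
# The local conditions: unramified, or in the image of the `x - θ` map
-/

set_option autoImplicit false

namespace Pool.Agent.H28.IQ

open Polynomial WithZero IsDedekindDomain HeightOneSpectrum H94.TC

section

variable {A K : Type*} [CommRing A] [IsDomain A] [IsPrincipalIdealRing A] [Field K] [Algebra A K]
  [IsFractionRing A K]

/-- `Δ(θ)` is, up to a square, an element of `O` which is a unit at the primes above `v` -/
def Unr (f : A[X]) (v : HeightOneSpectrum A) (Δ : K[X]) : Prop :=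
  ∃ (γ : AdjoinRoot (f.map (algebraMap A K))) (b : AdjoinRoot f),
    (∀ w : Ideal (AdjoinRoot f), w.IsPrime →
      (∀ a ∈ v.asIdeal, algebraMap A (AdjoinRoot f) a ∈ w) → b ∉ w) ∧
    AdjoinRoot.mk (f.map (algebraMap A K)) Δ * γ ^ 2 = toField K f b

theorem final_un (f : A[X]) (hf : f.Monic) (hodd : Odd f.natDegree)
    [IsDomain (AdjoinRoot f)] [IsIntegrallyClosed (AdjoinRoot f)]
    (hcl : ∀ c : ClassGroup (AdjoinRoot f), c ^ 2 = 1 → c = 1)
    (D : A) (hD : ∀ P : A, Prime P → P ∣ D → ∀ w w' : Ideal (AdjoinRoot f), w.IsPrime → w'.IsPrime →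
      algebraMap A (AdjoinRoot f) P ∈ w → algebraMap A (AdjoinRoot f) P ∈ w' → w = w')
    (Δ : K[X])
    (hΔ : IsCoprime Δ (f.map (algebraMap A K)))
    (hN : IsSquare (Algebra.norm K (AdjoinRoot.mk (f.map (algebraMap A K)) Δ)))
    (hloc : ∀ v : HeightOneSpectrum A, D ∉ v.asIdeal → Unr f v Δ ∨ LocImTw f D v Δ) :
    ∃ (u : (AdjoinRoot f)ˣ) (z : AdjoinRoot (f.map (algebraMap A K))),
      AdjoinRoot.mk (f.map (algebraMap A K)) Δ = toField K f u * z ^ 2 := by
  letI : Fact (Irreducible (f.map (algebraMap A K))) := ⟨irreducible_map K f hf⟩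
  letI := (toField K f).toAlgebra
  have : IsFractionRing (AdjoinRoot f) (AdjoinRoot (f.map (algebraMap A K))) :=
    isFractionRing_toField K f hf
  have := isDedekind_adjoinRoot f hf
  have := torsionFree_adjoinRoot f hf
  have : Module.Finite A (AdjoinRoot f) := hf.finite_adjoinRoot
  have : IsScalarTower A (AdjoinRoot f) (AdjoinRoot (f.map (algebraMap A K))) := by
    refine IsScalarTower.of_algebraMap_eq fun x => ?_
    show _ = toField K f _
    have h1 : algebraMap A (AdjoinRoot f) x = AdjoinRoot.mk f (C x) := rfl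
    rw [h1, toField_mk, Polynomial.map_C]
    rfl
  have hroot : algebraMap (AdjoinRoot f) (AdjoinRoot (f.map (algebraMap A K)))
      (AdjoinRoot.root f) = AdjoinRoot.root (f.map (algebraMap A K)) := by
    show toField K f _ = _
    rw [toField, AdjoinRoot.map_root]
  have haev : aeval (algebraMap (AdjoinRoot f) (AdjoinRoot (f.map (algebraMap A K)))
      (AdjoinRoot.root f)) Δ = AdjoinRoot.mk (f.map (algebraMap A K)) Δ := by
    rw [hroot, AdjoinRoot.aeval_eq]
  have hne : AdjoinRoot.mk (f.map (algebraMap A K)) Δ ≠ 0 := by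
    intro h0
    obtain ⟨a, b, hab⟩ := hΔ
    have := congrArg (AdjoinRoot.mk (f.map (algebraMap A K))) hab
    rw [map_add, map_mul, map_mul, h0, AdjoinRoot.mk_self, mul_zero, mul_zero, add_zero,
      map_one] at this
    exact zero_ne_one this
  refine main_par (K := K) (L := AdjoinRoot (f.map (algebraMap A K))) hodd hf hcl _ hne hN
    fun v => ?_
  by_cases hv : D ∈ v.asIdeal
  · obtain ⟨ϖ, hϖ, hv'⟩ := exists_gen v
    refine inert_parity hf hodd v ϖ hϖ hv' (fun w w' hw hw' => ?_) _ hne hN
    refine HeightOneSpectrum.ext (hD ϖ ?_ ?_ _ _ w.isPrime w'.isPrime hw hw')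
    · rw [← Ideal.span_singleton_prime hϖ, ← hv']; exact v.isPrime
    · rwa [hv', Ideal.mem_span_singleton] at hv
  · rcases hloc v hv with h | h
    · obtain ⟨γ, b, hb, hγ⟩ := h
      refine ⟨0, fun w hw => ?_⟩
      rw [pow_zero, mul_one]
      have h1 : b ∉ w.asIdeal := hb w.asIdeal w.isPrime (fun a ha => by
        have h2 : a ∈ w.asIdeal.under A := by
          rw [← hw.over]
          exact ha
        exact h2)
      have h2 : w.valuation (AdjoinRoot (f.map (algebraMap A K)))
          (algebraMap (AdjoinRoot f) (AdjoinRoot (f.map (algebraMap A K))) b) = 1 := by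
        rw [valuation_of_algebraMap]
        exact intValuation_eq_one_iff.2 h1
      have h3 : algebraMap (AdjoinRoot f) (AdjoinRoot (f.map (algebraMap A K))) b =
        AdjoinRoot.mk (f.map (algebraMap A K)) Δ * γ ^ 2 := hγ.symm
      rw [h3, map_mul, map_pow] at h2
      set x := w.valuation (AdjoinRoot (f.map (algebraMap A K)))
        (AdjoinRoot.mk (f.map (algebraMap A K)) Δ)
      set y := w.valuation (AdjoinRoot (f.map (algebraMap A K))) γ
      have hy : y ≠ 0 := by
        intro h0
        rw [h0, zero_pow two_ne_zero, mul_zero] at h2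
        exact zero_ne_one h2
      refine ⟨y⁻¹, ?_⟩
      rw [← mul_inv, ← sq]
      exact eq_inv_of_mul_eq_one_left h2
    · have h1 := local_parity_tw (L := AdjoinRoot (f.map (algebraMap A K))) v D hv Δ h
      rwa [haev] at h1

end

end Pool.Agent.H28.IQ
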